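import Mathlib

/-!
# The auxiliary real functions

`phi u = exp (-1/u)` for `u > 0` and `0` otherwise, `psi u = u * phi u`,
`ss z = e² phi (z - 1)` and `tt z = psi (1 - z) / psi (1 + z)`.
-/

open Set Polynomial
open scoped ContDiff

namespace Pool.Agent.Tight

/-- `exp (-1/u)` for `u > 0`, and `0` for `u ≤ 0`. -/
noncomputable def phi (u : ℝ) : ℝ := expNegInvGlue u
/-- `u exp (-1/u)` for `u > 0`, and `0` for `u ≤ 0`. -/
noncomputable def psi (u : ℝ) : ℝ := u * phi u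
/-- `ss z = exp (2 - 1/(z-1))` for `z > 1` and `0` for `z ≤ 1`. -/
noncomputable def ss (z : ℝ) : ℝ := Real.exp 2 * phi (z - 1)
/-- `tt z = psi (1 - z) / psi (1 + z)`. -/
noncomputable def tt (z : ℝ) : ℝ := psi (1 - z) / psi (1 + z)

lemma phi_pos {u : ℝ} (h : 0 < u) : 0 < phi u := expNegInvGlue.pos_of_pos h
lemma phi_zero {u : ℝ} (h : u ≤ 0) : phi u = 0 := expNegInvGlue.zero_of_nonpos h
lemma phi_nonneg (u : ℝ) : 0 ≤ phi u := expNegInvGlue.nonneg u
lemma phi_mono : Monotone phi := expNegInvGlue.monotone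
lemma contDiff_phi : ContDiff ℝ ∞ phi := expNegInvGlue.contDiff
lemma phi_eq {u : ℝ} (h : 0 < u) : phi u = Real.exp (-u⁻¹) := by
  simp [phi, expNegInvGlue, h.not_ge]

lemma hasDerivAt_phi (u : ℝ) : HasDerivAt phi (u⁻¹ ^ 2 * phi u) u := by
  have h := expNegInvGlue.hasDerivAt_polynomial_eval_inv_mul (1 : ℝ[X]) u
  simp only [eval_one, one_mul, derivative_one, sub_zero, mul_one, eval_pow, eval_X] at h
  exact h

lemma hasDerivAt_phi' (u : ℝ) :
    HasDerivAt (fun u => u⁻¹ ^ 2 * phi u) ((u⁻¹ ^ 4 - 2 * u⁻¹ ^ 3) * phi u) u := by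
  have h := expNegInvGlue.hasDerivAt_polynomial_eval_inv_mul (X ^ 2 : ℝ[X]) u
  simp only [eval_mul, eval_sub, eval_pow, eval_X, derivative_X_pow, eval_C,
    Nat.cast_ofNat] at h
  have h2 : HasDerivAt (fun u => u⁻¹ ^ 2 * phi u)
    (u⁻¹ ^ 2 * (u⁻¹ ^ 2 - 2 * u⁻¹ ^ (2 - 1)) * expNegInvGlue u) u := h
  refine h2.congr_deriv ?_
  rw [phi]
  ring

lemma psi_pos {u : ℝ} (h : 0 < u) : 0 < psi u := mul_pos h (phi_pos h)
lemma psi_zero {u : ℝ} (h : u ≤ 0) : psi u = 0 := by simp [psi, phi_zero h]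
lemma psi_nonneg (u : ℝ) : 0 ≤ psi u := by
  rcases le_or_gt u 0 with h | h
  · rw [psi_zero h]
  · exact (psi_pos h).le
lemma contDiff_psi : ContDiff ℝ ∞ psi := contDiff_id.mul contDiff_phi
lemma continuous_psi : Continuous psi := contDiff_psi.continuous

lemma hasDerivAt_psi (u : ℝ) : HasDerivAt psi ((1 + u⁻¹) * phi u) u := by
  have h : HasDerivAt psi (1 * phi u + u * (u⁻¹ ^ 2 * phi u)) u :=
    (hasDerivAt_id u).mul (hasDerivAt_phi u)
  refine h.congr_deriv ?_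
  rcases eq_or_ne u 0 with rfl | hu
  · simp
  · field_simp

/-- the derivative of `psi` -/
noncomputable def psi' (u : ℝ) : ℝ := (1 + u⁻¹) * phi u

lemma psi'_pos {u : ℝ} (h : 0 < u) : 0 < psi' u := mul_pos (by positivity) (phi_pos h)
lemma psi'_zero {u : ℝ} (h : u ≤ 0) : psi' u = 0 := by simp [psi', phi_zero h]

lemma contDiff_ss : ContDiff ℝ ∞ ss :=
  contDiff_const.mul (contDiff_phi.comp (contDiff_id.sub contDiff_const))
lemma continuous_ss : Continuous ss := contDiff_ss.continuous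
lemma ss_nonneg (z : ℝ) : 0 ≤ ss z := mul_nonneg (Real.exp_pos _).le (phi_nonneg _)
lemma ss_zero {z : ℝ} (h : z ≤ 1) : ss z = 0 := by simp [ss, phi_zero (sub_nonpos.2 h)]
lemma ss_mono : Monotone ss := fun a b h =>
  mul_le_mul_of_nonneg_left (phi_mono (by linarith)) (Real.exp_pos _).le

/-- the derivative of `ss` -/
noncomputable def ss' (z : ℝ) : ℝ := Real.exp 2 * ((z - 1)⁻¹ ^ 2 * phi (z - 1))

lemma hasDerivAt_ss (z : ℝ) : HasDerivAt ss (ss' z) z := by
  have h := (hasDerivAt_phi (z - 1)).comp z ((hasDerivAt_id z).sub_const 1)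
  rw [mul_one] at h
  exact h.const_mul _

lemma ss'_pos {z : ℝ} (h : 1 < z) : 0 < ss' z := by
  have h1 : 0 < z - 1 := by linarith
  have := phi_pos h1
  unfold ss'; positivity

lemma ss'_zero {z : ℝ} (h : z ≤ 1) : ss' z = 0 := by
  simp [ss', phi_zero (sub_nonpos.2 h)]

lemma ss_top : ss (3 / 2) = 1 := by
  rw [ss, phi_eq (by norm_num), ← Real.exp_add]
  norm_num

lemma one_lt_ss {z : ℝ} (h : 3 / 2 < z) : 1 < ss z := by
  rw [ss, phi_eq (by linarith), ← Real.exp_add, Real.one_lt_exp_iff]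
  have : (z - 1)⁻¹ < 2 := by
    rw [inv_lt_comm₀ (by linarith) (by norm_num)]; linarith
  linarith

lemma ss_le_one {z : ℝ} : ss z ≤ 1 ↔ z ≤ 3 / 2 := by
  constructor
  · intro h
    by_contra h'
    exact absurd (one_lt_ss (not_le.1 h')) (not_lt.2 h)
  · intro h
    rw [← ss_top]; exact ss_mono h

lemma ss_eq_one {z : ℝ} (h : ss z = 1) : 1 < z := by
  by_contra h'
  rw [ss_zero (not_lt.1 h')] at h
  norm_num at h

lemma convexOn_ss : ConvexOn ℝ (Iic (3 / 2)) ss := by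
  apply convexOn_of_hasDerivWithinAt2_nonneg (f' := ss')
    (f'' := fun z => Real.exp 2 * (((z - 1)⁻¹ ^ 4 - 2 * (z - 1)⁻¹ ^ 3) * phi (z - 1)))
    (convex_Iic _) continuous_ss.continuousOn
  · intro x _
    exact (hasDerivAt_ss x).hasDerivWithinAt
  · intro x _
    apply HasDerivAt.hasDerivWithinAt
    have h := (hasDerivAt_phi' (x - 1)).comp x ((hasDerivAt_id x).sub_const 1)
    rw [mul_one] at h
    exact h.const_mul _
  · intro x hx
    rw [interior_Iic] at hx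
    simp only [mem_Iio] at hx
    rcases le_or_gt x 1 with h1 | h1
    · simp [phi_zero (sub_nonpos.2 h1)]
    · have h2 : 0 < x - 1 := by linarith
      have h3 : (x - 1)⁻¹ ^ 4 - 2 * (x - 1)⁻¹ ^ 3 = (x - 1)⁻¹ ^ 4 * (1 - 2 * (x - 1)) := by
        field_simp
      rw [h3]
      have := phi_pos h2
      have : 0 ≤ 1 - 2 * (x - 1) := by linarith
      positivity

lemma tt_nonneg (z : ℝ) : 0 ≤ tt z := div_nonneg (psi_nonneg _) (psi_nonneg _)
lemma tt_zero {z : ℝ} (h : 1 ≤ z) : tt z = 0 := by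
  simp [tt, psi_zero (sub_nonpos.2 h)]
lemma tt_pos {z : ℝ} (h1 : -1 < z) (h2 : z < 1) : 0 < tt z :=
  div_pos (psi_pos (by linarith)) (psi_pos (by linarith))

lemma continuousAt_tt {z : ℝ} (h : -1 < z) : ContinuousAt tt z := by
  have h1 : psi (1 + z) ≠ 0 := (psi_pos (by linarith)).ne'
  exact ContinuousAt.div (continuous_psi.continuousAt.comp (by fun_prop))
    (continuous_psi.continuousAt.comp (by fun_prop)) h1

lemma hasDerivAt_tt {z : ℝ} (h1 : -1 < z) (h2 : z < 1) :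
    HasDerivAt tt (-4 * ((1 - z ^ 2)⁻¹) ^ 2 * tt z) z := by
  have hp : 0 < psi (1 + z) := psi_pos (by linarith)
  have a1 : HasDerivAt (fun z => psi (1 - z)) (-((1 + (1 - z)⁻¹) * phi (1 - z))) z := by
    have h : HasDerivAt (fun z => psi (1 - z)) ((1 + (1 - z)⁻¹) * phi (1 - z) * -1) z :=
      (hasDerivAt_psi (1 - z)).comp z ((hasDerivAt_id z).const_sub 1)
    exact h.congr_deriv (by ring)
  have a2 : HasDerivAt (fun z => psi (1 + z)) ((1 + (1 + z)⁻¹) * phi (1 + z)) z := by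
    have h : HasDerivAt (fun z => psi (1 + z)) ((1 + (1 + z)⁻¹) * phi (1 + z) * 1) z :=
      (hasDerivAt_psi (1 + z)).comp z ((hasDerivAt_id z).const_add 1)
    exact h.congr_deriv (by ring)
  have h : HasDerivAt tt _ z := a1.div a2 hp.ne'
  refine h.congr_deriv ?_
  have e1 : (0:ℝ) < 1 - z := by linarith
  have e2 : (0:ℝ) < 1 + z := by linarith
  have f1 := phi_pos e1
  have f2 := phi_pos e2
  have e3 : (1 - z ^ 2) = (1 - z) * (1 + z) := by ring
  rw [tt, psi, psi, e3]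
  field_simp
  ring

lemma convexOn_tt : ConvexOn ℝ (Ioc (-1) 1) tt := by
  apply convexOn_of_hasDerivWithinAt2_nonneg (f' := fun z => -4 * ((1 - z ^ 2)⁻¹) ^ 2 * tt z)
    (f'' := fun z => 16 * ((1 - z ^ 2)⁻¹) ^ 4 * (1 - z * (1 - z ^ 2)) * tt z)
    (convex_Ioc _ _)
  · intro x hx
    exact (continuousAt_tt hx.1).continuousWithinAt
  · intro x hx
    rw [interior_Ioc] at hx
    exact (hasDerivAt_tt hx.1 hx.2).hasDerivWithinAt
  · intro x hx
    rw [interior_Ioc] at hx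
    apply HasDerivAt.hasDerivWithinAt
    have hx' : (0:ℝ) < 1 - x ^ 2 := by nlinarith [hx.1, hx.2]
    have b1 : HasDerivAt (fun z : ℝ => 1 - z ^ 2) (-(2 * x)) x := by
      have := (hasDerivAt_pow 2 x).const_sub 1
      simpa using this
    have b2 : HasDerivAt (fun z : ℝ => -4 * ((1 - z ^ 2)⁻¹) ^ 2)
        (-16 * x * ((1 - x ^ 2)⁻¹) ^ 3) x := by
      have b : HasDerivAt (fun z : ℝ => -4 * ((1 - z ^ 2)⁻¹) ^ 2) _ x :=
        ((b1.inv hx'.ne').pow 2).const_mul (-4)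
      refine b.congr_deriv ?_
      simp only [Pi.inv_apply]
      norm_num
      field_simp
      ring
    have b3 : HasDerivAt (fun z => -4 * ((1 - z ^ 2)⁻¹) ^ 2 * tt z) _ x :=
      b2.mul (hasDerivAt_tt hx.1 hx.2)
    refine b3.congr_deriv ?_
    field_simp
    ring
  · intro x hx
    rw [interior_Ioc] at hx
    have hx' : (0:ℝ) < 1 - x ^ 2 := by nlinarith [hx.1, hx.2]
    have h1 : 0 ≤ 1 - x * (1 - x ^ 2) := by nlinarith [hx.1, hx.2, sq_nonneg x]
    have := tt_pos hx.1 hx.2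
    positivity

end Pool.Agent.Tight
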