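import Pool.Agent.Lib_helper4.Tight.ZeroTight

/-!
# Global properties of the surface: all half-spaces, convex hull, boundary curve
-/

open Set Function Topology


namespace Pool.Agent.Tight

/-! ### All directions -/

lemma continuous_pt {X : Type*} [TopologicalSpace X] {f g h : X → ℝ} (hf : Continuous f)
    (hg : Continuous g) (hh : Continuous h) : Continuous fun t => pt (f t) (g t) (h t) := by
  apply (PiLp.continuous_toLp 2 _).comp
  apply continuous_pi
  intro i
  fin_cases i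
  · exact hf
  · exact hg
  · exact hh

lemma continuous_c0 : Continuous fun q : E3 => q 0 := by fun_prop
lemma continuous_c1 : Continuous fun q : E3 => q 1 := by fun_prop
lemma continuous_c2 : Continuous fun q : E3 => q 2 := by fun_prop

/-- `(x, y, z) ↦ (-x, y, z)` -/
noncomputable def rf0 (q : E3) : E3 := pt (-q 0) (q 1) (q 2)
/-- `(x, y, z) ↦ (x, -y, z)` -/
noncomputable def rf1 (q : E3) : E3 := pt (q 0) (-q 1) (q 2)

lemma continuous_rf0 : Continuous rf0 := continuous_pt continuous_c0.neg continuous_c1 continuous_c2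
lemma continuous_rf1 : Continuous rf1 := continuous_pt continuous_c0 continuous_c1.neg continuous_c2
lemma continuous_swp : Continuous swp := continuous_pt continuous_c1 continuous_c0 continuous_c2.neg

lemma rf0_rf0 (q : E3) : rf0 (rf0 q) = q := by
  simp only [rf0, pt_zero, pt_one, pt_two, neg_neg]; exact pt_eta q
lemma rf1_rf1 (q : E3) : rf1 (rf1 q) = q := by
  simp only [rf1, pt_zero, pt_one, pt_two, neg_neg]; exact pt_eta q

lemma rf0_mem {q : E3} (h : q ∈ MM) : rf0 q ∈ MM := by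
  obtain ⟨h0, h1, h2⟩ := h
  refine ⟨⟨by simp [rf0]; linarith [h0.2], by simp [rf0]; linarith [h0.1]⟩, h1, ?_⟩
  simpa [GG, rf0] using h2
lemma rf1_mem {q : E3} (h : q ∈ MM) : rf1 q ∈ MM := by
  obtain ⟨h0, h1, h2⟩ := h
  refine ⟨h0, ⟨by simp [rf1]; linarith [h1.2], by simp [rf1]; linarith [h1.1]⟩, ?_⟩
  simpa [GG, rf1] using h2

lemma AA_neg0 (a b c : ℝ) (P : ℝ → Prop) : AA (-a) b c P = rf0 '' AA a b c P := by
  ext q
  constructor
  · rintro ⟨h1, h2⟩
    refine ⟨rf0 q, ⟨rf0_mem h1, ?_⟩, rf0_rf0 q⟩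
    simp only [rf0, pt_zero, pt_one, pt_two]
    convert h2 using 1; ring
  · rintro ⟨p, ⟨h1, h2⟩, rfl⟩
    refine ⟨rf0_mem h1, ?_⟩
    simp only [rf0, pt_zero, pt_one, pt_two]
    convert h2 using 1; ring

lemma AA_neg1 (a b c : ℝ) (P : ℝ → Prop) : AA a (-b) c P = rf1 '' AA a b c P := by
  ext q
  constructor
  · rintro ⟨h1, h2⟩
    refine ⟨rf1 q, ⟨rf1_mem h1, ?_⟩, rf1_rf1 q⟩
    simp only [rf1, pt_zero, pt_one, pt_two]
    convert h2 using 1; ring
  · rintro ⟨p, ⟨h1, h2⟩, rfl⟩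
    refine ⟨rf1_mem h1, ?_⟩
    simp only [rf1, pt_zero, pt_one, pt_two]
    convert h2 using 1; ring

lemma AA_swp (a b c : ℝ) (P : ℝ → Prop) : AA a b (-c) P = swp '' AA b a c P := by
  ext q
  constructor
  · rintro ⟨h1, h2⟩
    refine ⟨swp q, ⟨swp_mem.2 h1, ?_⟩, swp_swp q⟩
    simp only [swp_zero, swp_one, swp_two]
    convert h2 using 1; ring
  · rintro ⟨p, ⟨h1, h2⟩, rfl⟩
    refine ⟨swp_mem.2 h1, ?_⟩
    simp only [swp_zero, swp_one, swp_two]
    convert h2 using 1; ring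

/-- **Two-piece property**: all superlevel sets of linear functionals on `MM` are connected. -/
theorem preconnected_AA {P : ℝ → Prop} (hP : ∀ s t, s ≤ t → P s → P t) (a b c : ℝ) :
    IsPreconnected (AA a b c P) := by
  have h1 : ∀ a b c : ℝ, 0 ≤ a → 0 ≤ c → IsPreconnected (AA a b c P) := by
    intro a b c ha hc
    rcases le_total 0 b with hb | hb
    · exact preconnected_nonneg ha hb hc hP
    · have := (preconnected_nonneg ha (neg_nonneg.2 hb) hc hP).image rf1 continuous_rf1.continuousOn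
      rwa [← AA_neg1, neg_neg] at this
  have h2 : ∀ a b c : ℝ, 0 ≤ c → IsPreconnected (AA a b c P) := by
    intro a b c hc
    rcases le_total 0 a with ha | ha
    · exact h1 a b c ha hc
    · have := (h1 (-a) b c (neg_nonneg.2 ha) hc).image rf0 continuous_rf0.continuousOn
      rwa [← AA_neg0, neg_neg] at this
  rcases le_total 0 c with hc | hc
  · exact h2 a b c hc
  · have := (h2 b a (-c) (neg_nonneg.2 hc)).image swp continuous_swp.continuousOn
    rwa [← AA_swp, neg_neg] at this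

lemma inner_eq (v q : E3) : inner ℝ v q = v 0 * q 0 + v 1 * q 1 + v 2 * q 2 := by
  simp [PiLp.inner_apply, Fin.sum_univ_three]
  ring

theorem preconnected_closed (v : E3) (c : ℝ) : IsPreconnected {q | q ∈ MM ∧ c ≤ inner ℝ v q} := by
  have := preconnected_AA (P := fun t => c ≤ t) (fun s t h1 h2 => h2.trans h1) (v 0) (v 1) (v 2)
  simp only [inner_eq]
  exact this

theorem preconnected_open (v : E3) (c : ℝ) : IsPreconnected {q | q ∈ MM ∧ c < inner ℝ v q} := by
  have := preconnected_AA (P := fun t => c < t) (fun s t h1 h2 => lt_of_lt_of_le h2 h1)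
    (v 0) (v 1) (v 2)
  simp only [inner_eq]
  exact this

lemma isConnected_MM : IsConnected MM := by
  constructor
  · exact ⟨pt 1 1 0, ridge_mem (Or.inl rfl) (Or.inl rfl) (by norm_num)⟩
  · have := preconnected_AA (P := fun _ => True) (fun _ _ _ _ => trivial) 0 0 0
    simpa [AA] using this

/-! ### The convex hull -/

lemma mem_BB_top {x y z : ℝ} (hx : x = 1 ∨ x = -1) (hz : 1 ≤ z) (hy : y ^ 2 = 1 - ss z) :
    pt x y z ∈ BB := by
  refine ⟨mem_MM_top hz ?_ hy, Or.inl ⟨by simp; linarith, ?_⟩⟩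
  · rcases hx with rfl | rfl <;> constructor <;> norm_num
  · rcases hx with rfl | rfl <;> simp

lemma mem_BB_bot {x y z : ℝ} (hy : y = 1 ∨ y = -1) (hz : z ≤ -1) (hx : x ^ 2 = 1 - ss (-z)) :
    pt x y z ∈ BB := by
  refine ⟨mem_MM_bot hz ?_ hx, Or.inr ⟨by simpa using hz, ?_⟩⟩
  · rcases hy with rfl | rfl <;> constructor <;> norm_num
  · rcases hy with rfl | rfl <;> simp

lemma mem_BB_ridge {x y z : ℝ} (hx : x = 1 ∨ x = -1) (hy : y = 1 ∨ y = -1)
    (hz : z ∈ Icc (-1) 1) : pt x y z ∈ BB := by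
  refine ⟨ridge_mem hx hy hz, ?_⟩
  rcases eq_or_lt_of_le hz.1 with h | h
  · right
    refine ⟨by simp [← h], ?_⟩
    rcases hy with rfl | rfl <;> simp
  · left
    refine ⟨by simpa using h, ?_⟩
    rcases hx with rfl | rfl <;> simp

lemma pt_comb (x y z x' y' z' s : ℝ) :
    (1 - s) • pt x y z + s • pt x' y' z' = pt ((1 - s) * x + s * x') ((1 - s) * y + s * y')
      ((1 - s) * z + s * z') := by
  ext i; fin_cases i <;> simp [pt]

lemma hull_x {K : Set E3} (hK : Convex ℝ K) {x y z : ℝ} (hx : x ∈ Icc (-1) 1)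
    (h1 : pt (-1) y z ∈ K) (h2 : pt 1 y z ∈ K) : pt x y z ∈ K := by
  have h := hK h1 h2 (a := 1 - (1 + x) / 2) (b := (1 + x) / 2) (by linarith [hx.2])
    (by linarith [hx.1]) (by ring)
  rw [pt_comb] at h
  convert h using 2 <;> ring

lemma hull_y {K : Set E3} (hK : Convex ℝ K) {x y z : ℝ} (hy : y ∈ Icc (-1) 1)
    (h1 : pt x (-1) z ∈ K) (h2 : pt x 1 z ∈ K) : pt x y z ∈ K := by
  have h := hK h1 h2 (a := 1 - (1 + y) / 2) (b := (1 + y) / 2) (by linarith [hy.2])
    (by linarith [hy.1]) (by ring)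
  rw [pt_comb] at h
  convert h using 2 <;> ring

theorem convexHull_eq : convexHull ℝ MM = convexHull ℝ BB := by
  apply Subset.antisymm
  · apply convexHull_min _ (convex_convexHull ℝ BB)
    intro q hq
    have hC := convex_convexHull ℝ BB
    have hsub := subset_convexHull ℝ BB
    have hx : q 0 ∈ Icc (-1 : ℝ) 1 := hq.1
    have hy : q 1 ∈ Icc (-1 : ℝ) 1 := hq.2.1
    rw [← pt_eta q]
    rcases le_total 1 (q 2) with h | h
    · have h2 := ((mem_MM_iff_of_gt (by linarith)).1 hq).2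
      rw [tt_zero h] at h2
      exact hull_x hC hx (hsub (mem_BB_top (Or.inr rfl) h (by linarith)))
        (hsub (mem_BB_top (Or.inl rfl) h (by linarith)))
    rcases le_total (q 2) (-1) with h' | h'
    · have h2 := ((mem_MM_iff_of_lt (by linarith)).1 hq).2
      rw [tt_zero (show 1 ≤ -q 2 by linarith)] at h2
      exact hull_y hC hy (hsub (mem_BB_bot (Or.inr rfl) h' (by linarith)))
        (hsub (mem_BB_bot (Or.inl rfl) h' (by linarith)))
    · exact hull_x hC hx
        (hull_y hC hy (hsub (mem_BB_ridge (Or.inr rfl) (Or.inr rfl) ⟨h', h⟩))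
          (hsub (mem_BB_ridge (Or.inr rfl) (Or.inl rfl) ⟨h', h⟩)))
        (hull_y hC hy (hsub (mem_BB_ridge (Or.inl rfl) (Or.inr rfl) ⟨h', h⟩))
          (hsub (mem_BB_ridge (Or.inl rfl) (Or.inl rfl) ⟨h', h⟩)))
  · exact convexHull_mono (fun q hq => hq.1)

/-! ### The boundary curve is connected -/

lemma arcA_mem {x : ℝ} (hx : x = 1 ∨ x = -1) {d : ℝ} (hd : d = 1 ∨ d = -1) {t : ℝ}
    (ht : t ∈ Icc (-1) (3 / 2)) : pt x (d * hs t) t ∈ BB := by
  rcases le_total t 1 with h | h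
  · rw [hs_one h, mul_one]; exact mem_BB_ridge hx hd ⟨ht.1, h⟩
  · apply mem_BB_top hx h
    rw [mul_pow, hs_sq ht.2]
    rcases hd with rfl | rfl <;> norm_num

lemma arcB_mem {y : ℝ} (hy : y = 1 ∨ y = -1) {d : ℝ} (hd : d = 1 ∨ d = -1) {t : ℝ}
    (ht : t ∈ Icc (-(3 / 2)) 1) : pt (d * hs (-t)) y t ∈ BB := by
  rcases le_total (-1) t with h | h
  · rw [hs_one (by linarith), mul_one]; exact mem_BB_ridge hd hy ⟨h, ht.2⟩
  · apply mem_BB_bot hy h
    rw [mul_pow, hs_sq (by linarith [ht.1])]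
    rcases hd with rfl | rfl <;> norm_num

lemma arcA_joined {x : ℝ} (hx : x = 1 ∨ x = -1) {d : ℝ} (hd : d = 1 ∨ d = -1) {t u : ℝ}
    (ht : t ∈ Icc (-1) (3 / 2)) (hu : u ∈ Icc (-1) (3 / 2)) :
    JoinedIn BB (pt x (d * hs t) t) (pt x (d * hs u) u) := by
  have key : ∀ t u : ℝ, t ∈ Icc (-1 : ℝ) (3 / 2) → u ∈ Icc (-1 : ℝ) (3 / 2) → t ≤ u →
      JoinedIn BB (pt x (d * hs t) t) (pt x (d * hs u) u) := by
    intro t u ht hu htu
    exact joined_of_curve (γ := fun t => pt x (d * hs t) t) htu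
      (continuousOn_pt continuousOn_const (continuous_const.mul continuous_hs).continuousOn
        continuousOn_id) (fun s hs' => arcA_mem hx hd ⟨ht.1.trans hs'.1, hs'.2.trans hu.2⟩)
  rcases le_total t u with h | h
  · exact key t u ht hu h
  · exact (key u t hu ht h).symm

lemma arcB_joined {y : ℝ} (hy : y = 1 ∨ y = -1) {d : ℝ} (hd : d = 1 ∨ d = -1) {t u : ℝ}
    (ht : t ∈ Icc (-(3 / 2)) 1) (hu : u ∈ Icc (-(3 / 2)) 1) :
    JoinedIn BB (pt (d * hs (-t)) y t) (pt (d * hs (-u)) y u) := by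
  have key : ∀ t u : ℝ, t ∈ Icc (-(3 / 2) : ℝ) 1 → u ∈ Icc (-(3 / 2) : ℝ) 1 → t ≤ u →
      JoinedIn BB (pt (d * hs (-t)) y t) (pt (d * hs (-u)) y u) := by
    intro t u ht hu htu
    exact joined_of_curve (γ := fun t => pt (d * hs (-t)) y t) htu
      (continuousOn_pt (continuous_const.mul (continuous_hs.comp continuous_neg)).continuousOn
        continuousOn_const continuousOn_id)
      (fun s hs' => arcB_mem hy hd ⟨ht.1.trans hs'.1, hs'.2.trans hu.2⟩)
  rcases le_total t u with h | h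
  · exact key t u ht hu h
  · exact (key u t hu ht h).symm

theorem isConnected_BB : IsConnected BB := by
  have m0 : (0:ℝ) ∈ Icc (-1 : ℝ) (3 / 2) := by norm_num
  have m0' : (0:ℝ) ∈ Icc (-(3 / 2) : ℝ) 1 := by norm_num
  have m1 : (3 / 2 : ℝ) ∈ Icc (-1 : ℝ) (3 / 2) := by norm_num
  have m1' : (-(3 / 2) : ℝ) ∈ Icc (-(3 / 2) : ℝ) 1 := by norm_num
  have i1 : (1:ℝ) = 1 ∨ (1:ℝ) = -1 := Or.inl rfl
  have i2 : (-1:ℝ) = 1 ∨ (-1:ℝ) = -1 := Or.inr rfl
  have h0 : hs 0 = 1 := hs_one (by norm_num)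
  -- the four base points `(±1, ±1, 0)` are joined
  have jA : ∀ x : ℝ, (x = 1 ∨ x = -1) → JoinedIn BB (pt x 1 0) (pt x (-1) 0) := by
    intro x hx
    have a1 := arcA_joined hx i1 m0 m1
    have a2 := arcA_joined hx i2 m0 m1
    rw [h0, hs_top, mul_zero, mul_one] at a1 a2
    exact a1.trans a2.symm
  have jB : ∀ y : ℝ, (y = 1 ∨ y = -1) → JoinedIn BB (pt 1 y 0) (pt (-1) y 0) := by
    intro y hy
    have a1 := arcB_joined hy i1 m0' m1'
    have a2 := arcB_joined hy i2 m0' m1'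
    rw [neg_zero, h0, neg_neg, hs_top, mul_zero, mul_one] at a1 a2
    exact a1.trans a2.symm
  have base : ∀ x y : ℝ, (x = 1 ∨ x = -1) → (y = 1 ∨ y = -1) →
      JoinedIn BB (pt x y 0) (pt 1 1 0) := by
    intro x y hx hy
    have b1 : JoinedIn BB (pt x y 0) (pt 1 y 0) := by
      rcases hx with rfl | rfl
      · exact JoinedIn.refl (mem_BB_ridge i1 hy (by norm_num))
      · exact (jB y hy).symm
    have b2 : JoinedIn BB (pt 1 y 0) (pt 1 1 0) := by
      rcases hy with rfl | rfl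
      · exact JoinedIn.refl (mem_BB_ridge i1 i1 (by norm_num))
      · exact (jA 1 i1).symm
    exact b1.trans b2
  have all : ∀ q ∈ BB, JoinedIn BB q (pt 1 1 0) := by
    rintro q ⟨hq, ⟨hz, hx⟩ | ⟨hz, hy⟩⟩
    · have hx' : q 0 = 1 ∨ q 0 = -1 := by
        rcases abs_eq (show (0:ℝ) ≤ 1 by norm_num) |>.1 hx with h | h
        · exact Or.inl h
        · exact Or.inr h
      have h2 := ((mem_MM_iff_of_gt hz).1 hq).2
      have h3 : 1 - q 0 ^ 2 = 0 := by rcases hx' with h | h <;> rw [h] <;> norm_num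
      rw [h3, mul_zero, add_zero] at h2
      have h4 : |q 1| = hs (q 2) := by
        rw [hs, show 1 - ss (q 2) = q 1 ^ 2 by linarith, Real.sqrt_sq_eq_abs]
      obtain ⟨d, hd, hd'⟩ : ∃ d : ℝ, (d = 1 ∨ d = -1) ∧ q 1 = d * hs (q 2) := by
        rcases abs_choice (q 1) with h | h
        · exact ⟨1, i1, by rw [← h4, h]; ring⟩
        · exact ⟨-1, i2, by rw [← h4, h]; ring⟩
      have j := arcA_joined hx' hd (t := q 2) ⟨hz.le, z_le hq⟩ m0
      rw [← hd', pt_eta, h0, mul_one] at j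
      exact j.trans (base _ _ hx' hd)
    · have hy' : q 1 = 1 ∨ q 1 = -1 := by
        rcases abs_eq (show (0:ℝ) ≤ 1 by norm_num) |>.1 hy with h | h
        · exact Or.inl h
        · exact Or.inr h
      have h2 := ((mem_MM_iff_of_lt (by linarith)).1 hq).2
      have h3 : 1 - q 1 ^ 2 = 0 := by rcases hy' with h | h <;> rw [h] <;> norm_num
      rw [h3, mul_zero, add_zero] at h2
      have h4 : |q 0| = hs (-q 2) := by
        rw [hs, show 1 - ss (-q 2) = q 0 ^ 2 by linarith, Real.sqrt_sq_eq_abs]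
      obtain ⟨d, hd, hd'⟩ : ∃ d : ℝ, (d = 1 ∨ d = -1) ∧ q 0 = d * hs (-q 2) := by
        rcases abs_choice (q 0) with h | h
        · exact ⟨1, i1, by rw [← h4, h]; ring⟩
        · exact ⟨-1, i2, by rw [← h4, h]; ring⟩
      have j := arcB_joined hy' hd (t := q 2) ⟨le_z hq, by linarith⟩ m0'
      rw [← hd', pt_eta, neg_zero, h0, mul_one] at j
      exact j.trans (base _ _ hd hy')
  have hb : pt 1 1 0 ∈ BB := mem_BB_ridge i1 i1 (by norm_num)
  have : IsPathConnected BB := ⟨pt 1 1 0, hb, fun {y} hy => (all y hy).symm⟩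
  exact this.isConnected

end Pool.Agent.Tight
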