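import Pool.Agent.Lib_helper4.Tight.Global

/-!
# The surface is not simply connected
-/

open Set Function Topology unitInterval

namespace Pool.Agent.Tight

/-- the `(y, z)` coordinates around the point `(0, 1)`, as a complex number -/
noncomputable def wq (q : E3) : ℂ := ⟨q 1, q 2 - 1⟩

lemma continuous_wq : Continuous wq :=
  Complex.equivRealProdCLM.symm.continuous.comp
    (continuous_c1.prodMk (continuous_c2.sub continuous_const))

lemma wq_ne {q : E3} (h : q ∈ MM) : wq q ≠ 0 := by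
  intro h0
  have h1 : q 1 = 0 := congrArg Complex.re h0
  have h2 : q 2 - 1 = 0 := congrArg Complex.im h0
  have h2' : q 2 = 1 := by linarith
  have h3 := ((mem_MM_iff_of_gt (by linarith)).1 h).2
  rw [h1, h2', ss_zero le_rfl, tt_zero le_rfl] at h3
  norm_num at h3

/-- the profile of the loop `MM ∩ {x = 0}` -/
noncomputable def kk (t : ℝ) : ℝ := Real.sqrt (1 - ss t - tt t)

lemma tt_at_zero : tt 0 = 1 := by
  have : psi 1 ≠ 0 := (psi_pos one_pos).ne'
  simp [tt, this]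

lemma kk_nonneg (t : ℝ) : 0 ≤ kk t := Real.sqrt_nonneg _

lemma kk_sq {t : ℝ} (ht : t ∈ Icc 0 (3 / 2)) : kk t ^ 2 = 1 - ss t - tt t := by
  apply Real.sq_sqrt
  rcases le_total t 1 with h | h
  · rw [ss_zero h]
    have := tt_anti (⟨by norm_num, by norm_num⟩ : (0:ℝ) ∈ Ioc (-1) 1)
      (⟨by linarith [ht.1], h⟩ : t ∈ Ioc (-1) 1) ht.1
    rw [tt_at_zero] at this
    linarith
  · rw [tt_zero h]
    have := ss_le_one.2 ht.2
    linarith

lemma continuousOn_kk : ContinuousOn kk (Icc 0 (3 / 2)) := by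
  apply Real.continuous_sqrt.comp_continuousOn
  apply (continuousOn_const.sub continuous_ss.continuousOn).sub
  intro z hz
  exact (continuousAt_tt (by linarith [hz.1])).continuousWithinAt

lemma kk_zero : kk 0 = 0 := by simp [kk, tt_at_zero, ss_zero]
lemma kk_top : kk (3 / 2) = 0 := by
  rw [kk, ss_top, tt_zero (by norm_num)]; simp
lemma kk_one : kk 1 = 1 := by simp [kk, ss_zero, tt_zero]

lemma mem_loop {t : ℝ} (ht : t ∈ Icc 0 (3 / 2)) {d : ℝ} (hd : d = 1 ∨ d = -1) :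
    pt 0 (d * kk t) t ∈ MM := by
  rw [mem_MM_iff_of_gt (by simp; linarith [ht.1])]
  refine ⟨by simp, ?_⟩
  have h2 : d ^ 2 = 1 := by rcases hd with rfl | rfl <;> norm_num
  simp only [pt_zero, pt_one, pt_two, mul_pow, h2, kk_sq ht]
  ring

lemma param_mem (s : I) : (3 / 2 * (s : ℝ)) ∈ Icc (0 : ℝ) (3 / 2) := by
  constructor
  · have := s.2.1; positivity
  · have := s.2.2; linarith

/-- the two halves of the loop -/
noncomputable def halfLoop (d : ℝ) (hd : d = 1 ∨ d = -1) :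
    Path (⟨pt 0 0 0, by simpa [kk_zero] using mem_loop (t := 0) (by norm_num) hd⟩ : MM)
      (⟨pt 0 0 (3 / 2), by simpa [kk_top] using mem_loop (t := 3 / 2) (by norm_num) hd⟩ : MM) where
  toFun s := ⟨pt 0 (d * kk (3 / 2 * (s : ℝ))) (3 / 2 * (s : ℝ)), mem_loop (param_mem s) hd⟩
  continuous_toFun := by
    apply Continuous.subtype_mk
    have hp : Continuous fun s : I => 3 / 2 * (s : ℝ) := by fun_prop
    apply continuous_pt continuous_const _ hp
    apply continuous_const.mul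
    exact continuousOn_kk.comp_continuous hp param_mem
  source' := by simp [kk_zero]
  target' := by simp [kk_top]

lemma halfLoop_apply (d : ℝ) (hd : d = 1 ∨ d = -1) (s : I) :
    (halfLoop d hd s : E3) = pt 0 (d * kk (3 / 2 * (s : ℝ))) (3 / 2 * (s : ℝ)) := rfl

/-- the angle map -/
noncomputable def angleMap : C(MM, Real.Angle) where
  toFun q := ((wq q).arg : Real.Angle)
  continuous_toFun := by
    rw [continuous_iff_continuousAt]
    intro q
    have h1 := Complex.continuousAt_arg_coe_angle (wq_ne q.2)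
    have h2 : ContinuousAt (fun q : MM => wq (q : E3)) q :=
      (continuous_wq.comp continuous_subtype_val).continuousAt
    exact ContinuousAt.comp (f := fun q : MM => wq (q : E3)) h1 h2

lemma slit (t : ℝ) : (⟨kk t, t - 1⟩ : ℂ) ∈ Complex.slitPlane ∧
    (⟨kk t, 1 - t⟩ : ℂ) ∈ Complex.slitPlane := by
  rcases eq_or_ne t 1 with rfl | h
  · rw [kk_one]; simp [Complex.mem_slitPlane_iff]
  · constructor
    · right; show t - 1 ≠ 0; exact sub_ne_zero.2 h
    · right; show 1 - t ≠ 0; exact sub_ne_zero.2 h.symm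

theorem not_simplyConnected : ¬ SimplyConnectedSpace MM := by
  intro hS
  have hcov : IsCoveringMap ((↑) : ℝ → Real.Angle) := AddCircle.isCoveringMap_coe _
  have i1 : (1:ℝ) = 1 ∨ (1:ℝ) = -1 := Or.inl rfl
  have i2 : (-1:ℝ) = 1 ∨ (-1:ℝ) = -1 := Or.inr rfl
  obtain ⟨F⟩ := SimplyConnectedSpace.paths_homotopic (halfLoop 1 i1) (halfLoop (-1) i2)
  have hrel : (angleMap.comp (halfLoop 1 i1).toContinuousMap).HomotopicRel
      (angleMap.comp (halfLoop (-1) i2).toContinuousMap) {0, 1} := ⟨F.compContinuousMap _⟩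
  have hp : Continuous fun s : I => 3 / 2 * (s : ℝ) := by fun_prop
  have hk : Continuous fun s : I => kk (3 / 2 * (s : ℝ)) :=
    continuousOn_kk.comp_continuous hp param_mem
  -- explicit lifts
  let ΓR : C(I, ℝ) := ⟨fun s => (⟨kk (3 / 2 * (s : ℝ)), 3 / 2 * (s : ℝ) - 1⟩ : ℂ).arg, by
    rw [continuous_iff_continuousAt]
    intro s
    have h1 := Complex.continuousAt_arg (slit (3 / 2 * (s : ℝ))).1
    have h2 : ContinuousAt (fun s : I => (⟨kk (3 / 2 * (s : ℝ)), 3 / 2 * (s : ℝ) - 1⟩ : ℂ)) s :=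
      (Complex.equivRealProdCLM.symm.continuous.comp
        (hk.prodMk (hp.sub continuous_const))).continuousAt
    exact ContinuousAt.comp
      (f := fun s : I => (⟨kk (3 / 2 * (s : ℝ)), 3 / 2 * (s : ℝ) - 1⟩ : ℂ)) h1 h2⟩
  let ΓL : C(I, ℝ) := ⟨fun s => (⟨kk (3 / 2 * (s : ℝ)), 1 - 3 / 2 * (s : ℝ)⟩ : ℂ).arg - Real.pi, by
    apply Continuous.sub _ continuous_const
    rw [continuous_iff_continuousAt]
    intro s
    have h1 := Complex.continuousAt_arg (slit (3 / 2 * (s : ℝ))).2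
    have h2 : ContinuousAt (fun s : I => (⟨kk (3 / 2 * (s : ℝ)), 1 - 3 / 2 * (s : ℝ)⟩ : ℂ)) s :=
      (Complex.equivRealProdCLM.symm.continuous.comp
        (hk.prodMk (continuous_const.sub hp))).continuousAt
    exact ContinuousAt.comp
      (f := fun s : I => (⟨kk (3 / 2 * (s : ℝ)), 1 - 3 / 2 * (s : ℝ)⟩ : ℂ)) h1 h2⟩
  have hR0 : ΓR 0 = -(Real.pi / 2) := by
    show (⟨kk (3 / 2 * ((0 : I) : ℝ)), 3 / 2 * ((0 : I) : ℝ) - 1⟩ : ℂ).arg = _
    rw [Complex.arg_eq_neg_pi_div_two_iff]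
    simp [kk_zero]
  have hL0 : ΓL 0 = -(Real.pi / 2) := by
    show (⟨kk (3 / 2 * ((0 : I) : ℝ)), 1 - 3 / 2 * ((0 : I) : ℝ)⟩ : ℂ).arg - Real.pi = _
    have : (⟨kk (3 / 2 * ((0 : I) : ℝ)), 1 - 3 / 2 * ((0 : I) : ℝ)⟩ : ℂ).arg = Real.pi / 2 := by
      rw [Complex.arg_eq_pi_div_two_iff]
      simp [kk_zero]
    rw [this]; ring
  have hR1 : ΓR 1 = Real.pi / 2 := by
    show (⟨kk (3 / 2 * ((1 : I) : ℝ)), 3 / 2 * ((1 : I) : ℝ) - 1⟩ : ℂ).arg = _
    rw [Complex.arg_eq_pi_div_two_iff]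
    simp [kk_top]
    norm_num
  have hL1 : ΓL 1 = -(Real.pi / 2) - Real.pi := by
    show (⟨kk (3 / 2 * ((1 : I) : ℝ)), 1 - 3 / 2 * ((1 : I) : ℝ)⟩ : ℂ).arg - Real.pi = _
    have : (⟨kk (3 / 2 * ((1 : I) : ℝ)), 1 - 3 / 2 * ((1 : I) : ℝ)⟩ : ℂ).arg = -(Real.pi / 2) := by
      rw [Complex.arg_eq_neg_pi_div_two_iff]
      simp [kk_top]
      norm_num
    rw [this]
  have liftR : ((↑) : ℝ → Real.Angle) ∘ ΓR = angleMap.comp (halfLoop 1 i1).toContinuousMap := by
    funext s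
    show _ = ((wq (pt 0 (1 * kk (3 / 2 * (s : ℝ))) (3 / 2 * (s : ℝ)))).arg : Real.Angle)
    rw [one_mul]; rfl
  have liftL : ((↑) : ℝ → Real.Angle) ∘ ΓL = angleMap.comp (halfLoop (-1) i2).toContinuousMap := by
    funext s
    show (((⟨kk (3 / 2 * (s : ℝ)), 1 - 3 / 2 * (s : ℝ)⟩ : ℂ).arg - Real.pi : ℝ) : Real.Angle)
      = ((wq (pt 0 (-1 * kk (3 / 2 * (s : ℝ))) (3 / 2 * (s : ℝ)))).arg : Real.Angle)
    have e : (⟨kk (3 / 2 * (s : ℝ)), 1 - 3 / 2 * (s : ℝ)⟩ : ℂ)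
        = -wq (pt 0 (-1 * kk (3 / 2 * (s : ℝ))) (3 / 2 * (s : ℝ))) := by
      apply Complex.ext
      · simp [wq]
      · simp [wq]
    rw [e, Real.Angle.coe_sub, Complex.arg_neg_coe_angle (wq_ne (mem_loop (param_mem s) i2))]
    simp
  have e0 : (angleMap.comp (halfLoop 1 i1).toContinuousMap) 0 = ((-(Real.pi / 2) : ℝ) : Real.Angle) := by
    rw [← hR0]; exact (congrFun liftR 0).symm
  have e1 : (angleMap.comp (halfLoop (-1) i2).toContinuousMap) 0
      = ((-(Real.pi / 2) : ℝ) : Real.Angle) := by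
    rw [← hL0]; exact (congrFun liftL 0).symm
  have key := hcov.liftPath_apply_one_eq_of_homotopicRel hrel (-(Real.pi / 2)) e0 e1
  rw [← (hcov.eq_liftPath_iff' e0).2 ⟨liftR, hR0⟩, ← (hcov.eq_liftPath_iff' e1).2 ⟨liftL, hL0⟩,
    hR1, hL1] at key
  linarith [Real.pi_pos]

end Pool.Agent.Tight
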