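import Pool.Agent.Lib_helper4.Tight.Regular
import Pool.Agent.Lib_helper4.Tight.Functions

/-!
# The surface
-/

open Set Function Topology
open scoped ContDiff Manifold RealInnerProductSpace

namespace Pool.Agent.Tight

/-- The defining function of the surface. -/
noncomputable def GG (q : E3) : ℝ :=
  psi (1 + q 2) * (1 - q 1 ^ 2 - ss (q 2)) - psi (1 - q 2) * (1 - q 0 ^ 2 - ss (-q 2))

/-- The surface: a smooth torus minus a disc in `ℝ³`. -/
def MM : Set E3 := {q | q 0 ∈ Icc (-1) 1 ∧ q 1 ∈ Icc (-1) 1 ∧ GG q = 0}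

lemma contDiff_GG : ContDiff ℝ ∞ GG := by
  have h0 : ContDiff ℝ ∞ fun q : E3 => q 0 := by fun_prop
  have h1 : ContDiff ℝ ∞ fun q : E3 => q 1 := by fun_prop
  have h2 : ContDiff ℝ ∞ fun q : E3 => q 2 := by fun_prop
  unfold GG
  apply ContDiff.sub
  · apply ContDiff.mul (contDiff_psi.comp (contDiff_const.add h2))
    exact (contDiff_const.sub (h1.pow 2)).sub (contDiff_ss.comp h2)
  · apply ContDiff.mul (contDiff_psi.comp (contDiff_const.sub h2))
    exact (contDiff_const.sub (h0.pow 2)).sub (contDiff_ss.comp h2.neg)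

lemma continuous_GG : Continuous GG := contDiff_GG.continuous

lemma isClosed_MM : IsClosed MM := by
  have h0 : Continuous fun q : E3 => q 0 := by fun_prop
  have h1 : Continuous fun q : E3 => q 1 := by fun_prop
  exact (isClosed_Icc.preimage h0).inter ((isClosed_Icc.preimage h1).inter
    (isClosed_singleton.preimage continuous_GG))

/-- `∂GG/∂z` -/
noncomputable def GGz (q : E3) : ℝ :=
  psi' (1 + q 2) * (1 - q 1 ^ 2 - ss (q 2)) - psi (1 + q 2) * ss' (q 2)
    + psi' (1 - q 2) * (1 - q 0 ^ 2 - ss (-q 2)) - psi (1 - q 2) * ss' (-q 2)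

lemma fderiv_GG (q w : E3) :
    fderiv ℝ GG q w = 2 * q 0 * psi (1 - q 2) * w 0 - 2 * q 1 * psi (1 + q 2) * w 1
      + GGz q * w 2 := by
  have p0 : HasFDerivAt (fun q : E3 => q 0) (EuclideanSpace.proj 0 : E3 →L[ℝ] ℝ) q :=
    (EuclideanSpace.proj 0 : E3 →L[ℝ] ℝ).hasFDerivAt
  have p1 : HasFDerivAt (fun q : E3 => q 1) (EuclideanSpace.proj 1 : E3 →L[ℝ] ℝ) q :=
    (EuclideanSpace.proj 1 : E3 →L[ℝ] ℝ).hasFDerivAt
  have p2 : HasFDerivAt (fun q : E3 => q 2) (EuclideanSpace.proj 2 : E3 →L[ℝ] ℝ) q :=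
    (EuclideanSpace.proj 2 : E3 →L[ℝ] ℝ).hasFDerivAt
  have a1 := (hasDerivAt_psi (1 + q 2)).comp_hasFDerivAt q (p2.const_add 1)
  have a2 := (hasDerivAt_psi (1 - q 2)).comp_hasFDerivAt q (p2.const_sub 1)
  have a3 := (hasDerivAt_ss (q 2)).comp_hasFDerivAt q p2
  have a4 := (hasDerivAt_ss (-q 2)).comp_hasFDerivAt q p2.neg
  have a5 := ((p1.pow 2).const_sub 1).sub a3
  have a6 := ((p0.pow 2).const_sub 1).sub a4
  have a7 : HasFDerivAt GG _ q := (a1.mul a5).sub (a2.mul a6)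
  rw [a7.fderiv]
  simp [GGz, psi']
  ring

/-- `MM` above the plane `z = -1`. -/
lemma mem_MM_iff_of_gt {q : E3} (h : -1 < q 2) :
    q ∈ MM ↔ (q 0 ∈ Icc (-1) 1 ∧ 1 - q 1 ^ 2 = ss (q 2) + tt (q 2) * (1 - q 0 ^ 2)) := by
  have h1 : 0 < psi (1 + q 2) := psi_pos (by linarith)
  have h2 : ss (-q 2) = 0 := ss_zero (by linarith)
  have h3 : GG q = 0 ↔ 1 - q 1 ^ 2 = ss (q 2) + tt (q 2) * (1 - q 0 ^ 2) := by
    rw [GG, h2, tt]
    constructor
    · intro h
      field_simp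
      linarith
    · intro h
      field_simp at h
      linarith
  constructor
  · rintro ⟨ha, hb, hc⟩
    exact ⟨ha, h3.1 hc⟩
  · rintro ⟨ha, hc⟩
    refine ⟨ha, ?_, h3.2 hc⟩
    have h4 : 0 ≤ 1 - q 0 ^ 2 := by nlinarith [ha.1, ha.2]
    have h5 := mul_nonneg (tt_nonneg (q 2)) h4
    have h6 := ss_nonneg (q 2)
    have : q 1 ^ 2 ≤ 1 := by linarith
    exact abs_le.1 ((sq_le_one_iff_abs_le_one _).1 this)

/-- The swap symmetry `(x, y, z) ↦ (y, x, -z)`. -/
noncomputable def swp (q : E3) : E3 := !₂[q 1, q 0, -q 2]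

@[simp] lemma swp_zero (q : E3) : swp q 0 = q 1 := rfl
@[simp] lemma swp_one (q : E3) : swp q 1 = q 0 := rfl
@[simp] lemma swp_two (q : E3) : swp q 2 = -q 2 := rfl
lemma swp_swp (q : E3) : swp (swp q) = q := by
  ext i; fin_cases i <;> simp [swp]

lemma GG_swp (q : E3) : GG (swp q) = -GG q := by
  simp only [GG, swp_zero, swp_one, swp_two, neg_neg, sub_neg_eq_add]
  rw [← sub_eq_add_neg]
  ring

lemma swp_mem {q : E3} : swp q ∈ MM ↔ q ∈ MM := by
  simp only [MM, mem_ofPred_eq, GG_swp, neg_eq_zero, swp_zero, swp_one]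
  tauto

/-- `MM` below the plane `z = 1`. -/
lemma mem_MM_iff_of_lt {q : E3} (h : q 2 < 1) :
    q ∈ MM ↔ (q 1 ∈ Icc (-1) 1 ∧ 1 - q 0 ^ 2 = ss (-q 2) + tt (-q 2) * (1 - q 1 ^ 2)) := by
  rw [← swp_mem, mem_MM_iff_of_gt (by simp; linarith)]
  simp

lemma z_le {q : E3} (h : q ∈ MM) : q 2 ≤ 3 / 2 := by
  by_contra hc
  have hc' : 3 / 2 < q 2 := not_le.1 hc
  rw [mem_MM_iff_of_gt (by linarith), tt_zero (by linarith)] at h
  have := one_lt_ss hc'
  nlinarith [h.2, sq_nonneg (q 1)]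

lemma le_z {q : E3} (h : q ∈ MM) : -(3 / 2) ≤ q 2 := by
  have := z_le (swp_mem.2 h)
  simp at this
  linarith

lemma isCompact_MM : IsCompact MM := by
  apply Metric.isCompact_of_isClosed_isBounded isClosed_MM
  rw [isBounded_iff_forall_norm_le]
  refine ⟨3, fun q hq => ?_⟩
  have h0 := hq.1
  have h1 := hq.2.1
  have h2 := z_le hq
  have h3 := le_z hq
  rw [EuclideanSpace.norm_eq, Real.sqrt_le_left (by norm_num)]
  simp only [Fin.sum_univ_three, Real.norm_eq_abs, sq_abs]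
  nlinarith [h0.1, h0.2, h1.1, h1.2]

lemma GGz_ne_of_gt {p : E3} (hp : p ∈ MM) (hz : -1 < p 2) (hy : p 1 = 0) : GGz p ≠ 0 := by
  have h := (mem_MM_iff_of_gt hz).1 hp
  have h4 : 0 ≤ 1 - p 0 ^ 2 := by nlinarith [h.1.1, h.1.2]
  have h5 : ss (-p 2) = 0 := ss_zero (by linarith)
  have h6 : ss' (-p 2) = 0 := ss'_zero (by linarith)
  have hp1 := psi'_pos (show 0 < 1 + p 2 by linarith)
  have hp2 := psi_pos (show 0 < 1 + p 2 by linarith)
  rcases lt_or_ge (p 2) 1 with h1 | h1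
  · have h7 : ss (p 2) = 0 := ss_zero h1.le
    have h8 : ss' (p 2) = 0 := ss'_zero h1.le
    have hp3 := psi'_pos (show 0 < 1 - p 2 by linarith)
    rw [GGz, h5, h6, h7, h8, hy]
    have := mul_nonneg hp3.le h4
    nlinarith
  · have h2 := h.2
    rw [tt_zero h1, hy] at h2
    have h3 : ss (p 2) = 1 := by linarith
    have h7 := ss_eq_one h3
    have h8 := ss'_pos h7
    rw [GGz, h5, h6, h3, hy, psi'_zero (by linarith : 1 - p 2 ≤ 0),
      psi_zero (by linarith : 1 - p 2 ≤ 0)]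
    have := mul_pos hp2 h8
    intro h9
    nlinarith

lemma GGz_swp (q : E3) : GGz (swp q) = GGz q := by
  simp only [GGz, swp_zero, swp_one, swp_two, neg_neg, sub_neg_eq_add]
  rw [← sub_eq_add_neg]
  ring

lemma GGz_ne_of_lt {p : E3} (hp : p ∈ MM) (hz : p 2 < 1) (hx : p 0 = 0) : GGz p ≠ 0 := by
  rw [← GGz_swp]
  exact GGz_ne_of_gt (swp_mem.2 hp) (by simp; linarith) (by simpa using hx)

lemma sign_aux {a : ℝ} : ∃ ε : ℝ, (ε = 1 ∨ ε = -1) ∧ ε * a = |a| := by
  rcases le_total 0 a with h | h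
  · exact ⟨1, Or.inl rfl, by rw [abs_of_nonneg h, one_mul]⟩
  · exact ⟨-1, Or.inr rfl, by rw [abs_of_nonpos h]; ring⟩

lemma fderiv_bdry (ε : ℝ) (i : Fin 3) (p w : E3) :
    fderiv ℝ (fun q : E3 => 1 - ε * q i) p w = -(ε * w i) := by
  have p0 : HasFDerivAt (fun q : E3 => q i) (EuclideanSpace.proj i : E3 →L[ℝ] ℝ) p :=
    (EuclideanSpace.proj i : E3 →L[ℝ] ℝ).hasFDerivAt
  rw [((p0.const_mul ε).const_sub 1).fderiv]
  simp

lemma fderiv_coord (i : Fin 3) (p w : E3) : fderiv ℝ (fun q : E3 => q i) p w = w i := by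
  have p0 : HasFDerivAt (fun q : E3 => q i) (EuclideanSpace.proj i : E3 →L[ℝ] ℝ) p :=
    (EuclideanSpace.proj i : E3 →L[ℝ] ℝ).hasFDerivAt
  rw [p0.fderiv]
  simp

lemma ext3 {w : E3} (h0 : w 0 = 0) (h1 : w 1 = 0) (h2 : w 2 = 0) : w = 0 := by
  ext i; fin_cases i <;> simpa

lemma slice_pos {p : E3} (hp : p ∈ MM) (hz : -1 < p 2) :
    ∃ S : SliceChart MM p, S.Φ p 0 = 1 - |p 0| := by
  obtain ⟨ε, hε, hε'⟩ := sign_aux (a := p 0)
  have hε0 : ε ≠ 0 := by rcases hε with rfl | rfl <;> norm_num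
  have hGs : ContDiff ℝ ∞ (fun q : E3 => 1 - ε * q 0) := by fun_prop
  have hU : IsOpen {q : E3 | -1 < q 2 ∧ -1 < ε * q 0} := by
    have c1 : IsOpen {q : E3 | -1 < q 2} := isOpen_lt continuous_const (by fun_prop)
    have c2 : IsOpen {q : E3 | -1 < ε * q 0} := isOpen_lt continuous_const (by fun_prop)
    exact c1.inter c2
  have hpU : p ∈ {q : E3 | -1 < q 2 ∧ -1 < ε * q 0} := by
    refine ⟨hz, ?_⟩
    show -1 < ε * p 0
    rw [hε']
    linarith [abs_nonneg (p 0)]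
  have hM : ∀ q ∈ {q : E3 | -1 < q 2 ∧ -1 < ε * q 0}, q ∈ MM ↔ (GG q = 0 ∧ 0 ≤ 1 - ε * q 0) := by
    rintro q ⟨h1, h2⟩
    have h1' : -1 < q 2 := h1
    have h2' : -1 < ε * q 0 := h2
    constructor
    · intro h
      refine ⟨h.2.2, ?_⟩
      rcases hε with rfl | rfl
      · linarith [h.1.2]
      · linarith [h.1.1]
    · rintro ⟨h3, h4⟩
      have h5 : q 0 ∈ Icc (-1 : ℝ) 1 := by
        rcases hε with rfl | rfl
        · exact ⟨by linarith, by linarith⟩
        · exact ⟨by linarith, by linarith⟩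
      refine ⟨h5, ?_, h3⟩
      have h6 : 0 < psi (1 + q 2) := psi_pos (by linarith)
      have h7 : ss (-q 2) = 0 := ss_zero (by linarith)
      have h8 := psi_nonneg (1 - q 2)
      have h9 := ss_nonneg (q 2)
      have h10 : 0 ≤ 1 - q 0 ^ 2 := by nlinarith [h5.1, h5.2]
      rw [GG, h7] at h3
      have h11 : 0 ≤ psi (1 + q 2) * (1 - q 1 ^ 2 - ss (q 2)) := by
        have := mul_nonneg h8 h10
        linarith
      have h12 : 0 ≤ 1 - q 1 ^ 2 - ss (q 2) := nonneg_of_mul_nonneg_right h11 h6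
      exact abs_le.1 ((sq_le_one_iff_abs_le_one _).1 (by linarith))
  rcases eq_or_ne (p 1) 0 with hy | hy
  · obtain ⟨S, hS⟩ := exists_sliceChart hU hpU contDiff_GG hGs
      (by fun_prop : ContDiff ℝ ∞ (fun q : E3 => q 1)) hM (by
        intro w h1 h2 h3
        rw [fderiv_bdry] at h1
        rw [fderiv_coord] at h2
        rw [fderiv_GG] at h3
        have h4 : w 0 = 0 := by
          have : ε * w 0 = 0 := by linarith
          exact (mul_eq_zero.1 this).resolve_left hε0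
        rw [h4, h2] at h3
        have h5 : GGz p * w 2 = 0 := by linarith
        exact ext3 h4 h2 ((mul_eq_zero.1 h5).resolve_left (GGz_ne_of_gt hp hz hy)))
    exact ⟨S, by rw [hS, hε']⟩
  · obtain ⟨S, hS⟩ := exists_sliceChart hU hpU contDiff_GG hGs
      (by fun_prop : ContDiff ℝ ∞ (fun q : E3 => q 2)) hM (by
        intro w h1 h2 h3
        rw [fderiv_bdry] at h1
        rw [fderiv_coord] at h2
        rw [fderiv_GG] at h3
        have h4 : w 0 = 0 := by
          have : ε * w 0 = 0 := by linarith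
          exact (mul_eq_zero.1 this).resolve_left hε0
        rw [h4, h2] at h3
        have h5 : (2 * p 1 * psi (1 + p 2)) * w 1 = 0 := by linarith
        have h6 := psi_pos (show 0 < 1 + p 2 by linarith)
        have h7 : 2 * p 1 * psi (1 + p 2) ≠ 0 := by positivity
        exact ext3 h4 ((mul_eq_zero.1 h5).resolve_left h7) h2)
    exact ⟨S, by rw [hS, hε']⟩

lemma slice_neg {p : E3} (hp : p ∈ MM) (hz : p 2 < 1) :
    ∃ S : SliceChart MM p, S.Φ p 0 = 1 - |p 1| := by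
  obtain ⟨ε, hε, hε'⟩ := sign_aux (a := p 1)
  have hε0 : ε ≠ 0 := by rcases hε with rfl | rfl <;> norm_num
  have hGs : ContDiff ℝ ∞ (fun q : E3 => 1 - ε * q 1) := by fun_prop
  have hU : IsOpen {q : E3 | q 2 < 1 ∧ -1 < ε * q 1} := by
    have c1 : IsOpen {q : E3 | q 2 < 1} := isOpen_lt (by fun_prop) continuous_const
    have c2 : IsOpen {q : E3 | -1 < ε * q 1} := isOpen_lt continuous_const (by fun_prop)
    exact c1.inter c2
  have hpU : p ∈ {q : E3 | q 2 < 1 ∧ -1 < ε * q 1} := by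
    refine ⟨hz, ?_⟩
    show -1 < ε * p 1
    rw [hε']
    linarith [abs_nonneg (p 1)]
  have hM : ∀ q ∈ {q : E3 | q 2 < 1 ∧ -1 < ε * q 1}, q ∈ MM ↔ (GG q = 0 ∧ 0 ≤ 1 - ε * q 1) := by
    rintro q ⟨h1, h2⟩
    have h1' : q 2 < 1 := h1
    have h2' : -1 < ε * q 1 := h2
    constructor
    · intro h
      refine ⟨h.2.2, ?_⟩
      rcases hε with rfl | rfl
      · linarith [h.2.1.2]
      · linarith [h.2.1.1]
    · rintro ⟨h3, h4⟩
      have h5 : q 1 ∈ Icc (-1 : ℝ) 1 := by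
        rcases hε with rfl | rfl
        · exact ⟨by linarith, by linarith⟩
        · exact ⟨by linarith, by linarith⟩
      refine ⟨?_, h5, h3⟩
      have h6 : 0 < psi (1 - q 2) := psi_pos (by linarith)
      have h7 : ss (q 2) = 0 := ss_zero (by linarith)
      have h8 := psi_nonneg (1 + q 2)
      have h9 := ss_nonneg (-q 2)
      have h10 : 0 ≤ 1 - q 1 ^ 2 := by nlinarith [h5.1, h5.2]
      rw [GG, h7] at h3
      have h11 : 0 ≤ psi (1 - q 2) * (1 - q 0 ^ 2 - ss (-q 2)) := by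
        have := mul_nonneg h8 h10
        linarith
      have h12 : 0 ≤ 1 - q 0 ^ 2 - ss (-q 2) := nonneg_of_mul_nonneg_right h11 h6
      exact abs_le.1 ((sq_le_one_iff_abs_le_one _).1 (by linarith))
  rcases eq_or_ne (p 0) 0 with hy | hy
  · obtain ⟨S, hS⟩ := exists_sliceChart hU hpU contDiff_GG hGs
      (by fun_prop : ContDiff ℝ ∞ (fun q : E3 => q 0)) hM (by
        intro w h1 h2 h3
        rw [fderiv_bdry] at h1
        rw [fderiv_coord] at h2
        rw [fderiv_GG] at h3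
        have h4 : w 1 = 0 := by
          have : ε * w 1 = 0 := by linarith
          exact (mul_eq_zero.1 this).resolve_left hε0
        rw [h4, h2] at h3
        have h5 : GGz p * w 2 = 0 := by linarith
        exact ext3 h2 h4 ((mul_eq_zero.1 h5).resolve_left (GGz_ne_of_lt hp hz hy)))
    exact ⟨S, by rw [hS, hε']⟩
  · obtain ⟨S, hS⟩ := exists_sliceChart hU hpU contDiff_GG hGs
      (by fun_prop : ContDiff ℝ ∞ (fun q : E3 => q 2)) hM (by
        intro w h1 h2 h3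
        rw [fderiv_bdry] at h1
        rw [fderiv_coord] at h2
        rw [fderiv_GG] at h3
        have h4 : w 1 = 0 := by
          have : ε * w 1 = 0 := by linarith
          exact (mul_eq_zero.1 this).resolve_left hε0
        rw [h4, h2] at h3
        have h5 : (2 * p 0 * psi (1 - p 2)) * w 0 = 0 := by linarith
        have h6 := psi_pos (show 0 < 1 - p 2 by linarith)
        have h7 : 2 * p 0 * psi (1 - p 2) ≠ 0 := by positivity
        exact ext3 ((mul_eq_zero.1 h5).resolve_left h7) h4 h2)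
    exact ⟨S, by rw [hS, hε']⟩

/-- The boundary curve, as a set. -/
def BB : Set E3 := {q | q ∈ MM ∧ ((-1 < q 2 ∧ |q 0| = 1) ∨ (q 2 ≤ -1 ∧ |q 1| = 1))}

lemma exists_slice (p : MM) :
    ∃ S : SliceChart MM (p : E3), (S.Φ p 0 = 0 ↔ (p : E3) ∈ BB) := by
  rcases lt_or_ge (-1) ((p : E3) 2) with h | h
  · obtain ⟨S, hS⟩ := slice_pos p.2 h
    refine ⟨S, ?_⟩
    rw [hS]
    constructor
    · intro h1
      exact ⟨p.2, Or.inl ⟨h, by linarith⟩⟩
    · rintro ⟨_, ⟨_, h1⟩ | ⟨h1, _⟩⟩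
      · rw [h1]; ring
      · linarith
  · obtain ⟨S, hS⟩ := slice_neg p.2 (lt_of_le_of_lt h (by norm_num))
    refine ⟨S, ?_⟩
    rw [hS]
    constructor
    · intro h1
      exact ⟨p.2, Or.inr ⟨h, by linarith⟩⟩
    · rintro ⟨_, ⟨h1, _⟩ | ⟨_, h1⟩⟩
      · linarith
      · rw [h1]; ring

/-- The slice charts of `MM`. -/
noncomputable def slices (p : MM) : SliceChart MM (p : E3) := (exists_slice p).choose

lemma slices_spec (p : MM) : ((slices p).Φ p 0 = 0 ↔ (p : E3) ∈ BB) := (exists_slice p).choose_spec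

end Pool.Agent.Tight
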