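import Pool.Agent.Lib_helper4.Tight.Loop

/-!
# The normal field and the statement-level properties
-/

open Set Function Topology
open scoped ContDiff Manifold

namespace Pool.Agent.Tight

lemma fderiv_GG_ne {p : E3} (hp : p ∈ MM) : fderiv ℝ GG p ≠ 0 := by
  intro h
  have h' : ∀ w, fderiv ℝ GG p w = 0 := fun w => by rw [h]; rfl
  simp only [fderiv_GG] at h'
  rcases lt_or_ge (-1) (p 2) with hz | hz
  · rcases eq_or_ne (p 1) 0 with hy | hy
    · have := h' (pt 0 0 1)
      simp only [pt_zero, pt_one, pt_two] at this
      exact GGz_ne_of_gt hp hz hy (by linarith)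
    · have := h' (pt 0 1 0)
      simp only [pt_zero, pt_one, pt_two] at this
      have h6 := psi_pos (show 0 < 1 + p 2 by linarith)
      have h7 : 2 * p 1 * psi (1 + p 2) ≠ 0 := by positivity
      exact h7 (by linarith)
  · rcases eq_or_ne (p 0) 0 with hx | hx
    · have := h' (pt 0 0 1)
      simp only [pt_zero, pt_one, pt_two] at this
      exact GGz_ne_of_lt hp (by linarith) hx (by linarith)
    · have := h' (pt 1 0 0)
      simp only [pt_zero, pt_one, pt_two] at this
      have h6 := psi_pos (show 0 < 1 - p 2 by linarith)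
      have h7 : 2 * p 0 * psi (1 - p 2) ≠ 0 := by positivity
      exact h7 (by linarith)

/-- the normal field -/
noncomputable def normalField (p : MM) : E3 :=
  (InnerProductSpace.toDual ℝ E3).symm (fderiv ℝ GG (p : E3))

lemma continuous_normalField : Continuous normalField :=
  (InnerProductSpace.toDual ℝ E3).symm.continuous.comp
    ((contDiff_GG.continuous_fderiv (by simp)).comp continuous_subtype_val)

lemma normalField_ne (p : MM) : normalField p ≠ 0 := by
  intro h
  apply fderiv_GG_ne p.2
  have := (InnerProductSpace.toDual ℝ E3).symm.injective (h.trans (map_zero _).symm)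
  exact this

lemma normalField_orth (p : MM) :
    let _ := chartedSpace slices
    ∀ w : TangentSpace (𝓡∂ 2) p,
      inner ℝ (normalField p) (mfderiv (𝓡∂ 2) 𝓘(ℝ, E3) (Subtype.val : MM → E3) p w : E3) = 0 := by
  intro _inst w
  have := isManifold slices
  have hf : MDifferentiableAt (𝓡∂ 2) 𝓘(ℝ, E3) (Subtype.val : MM → E3) p :=
    ((isSmoothEmbedding slices).contMDiff p).mdifferentiableAt (by simp)
  have hG : MDifferentiableAt 𝓘(ℝ, E3) 𝓘(ℝ, ℝ) GG (p : E3) :=
    (contDiff_GG.differentiable (by simp) _).mdifferentiableAt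
  have hcomp := mfderiv_comp p hG hf
  have hconst : (GG ∘ (Subtype.val : MM → E3)) = fun _ => (0 : ℝ) := by
    funext q; exact q.2.2.2
  rw [hconst, mfderiv_const] at hcomp
  have h1 := congrArg (fun L => L w) hcomp
  rw [mfderiv_eq_fderiv] at h1
  have key : ∀ x : E3, inner ℝ (normalField p) x = fderiv ℝ GG (p : E3) x := by
    intro x
    rw [normalField, InnerProductSpace.toDual_symm_apply]
  exact (key _).trans h1.symm

end Pool.Agent.Tight
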