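import Pool.Agent.Lib_helper4.Tight.Slice

open Set Function Topology
open scoped ContDiff Manifold RealInnerProductSpace

namespace Pool.Agent.Tight

/-- Slice chart from three independent functions. -/
lemma exists_sliceChart {M : Set E3} {p : E3} {U : Set E3} (hU : IsOpen U) (hpU : p ∈ U)
    {F G H : E3 → ℝ} (hF : ContDiff ℝ ∞ F) (hG : ContDiff ℝ ∞ G) (hH : ContDiff ℝ ∞ H)
    (hM : ∀ q ∈ U, q ∈ M ↔ (F q = 0 ∧ 0 ≤ G q))
    (hker : ∀ w : E3, fderiv ℝ G p w = 0 → fderiv ℝ H p w = 0 → fderiv ℝ F p w = 0 → w = 0) :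
    ∃ S : SliceChart M p, S.Φ p 0 = G p := by
  set Ψ : E3 → E3 := fun q => !₂[G q, H q, F q] with hΨ
  have hΨs : ContDiff ℝ ∞ Ψ := by
    rw [contDiff_euclidean]
    intro i
    fin_cases i
    · exact hG
    · exact hH
    · exact hF
  have hdiff : ∀ q, DifferentiableAt ℝ Ψ q := fun q => (hΨs.differentiable (by simp)) q
  have hco : ∀ (i : Fin 3) q w, fderiv ℝ (fun q => Ψ q i) q w = fderiv ℝ Ψ q w i := by
    intro i q w
    have h1 : HasFDerivAt (fun q => Ψ q i)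
        ((EuclideanSpace.proj i : E3 →L[ℝ] ℝ).comp (fderiv ℝ Ψ q)) q :=
      (EuclideanSpace.proj i : E3 →L[ℝ] ℝ).hasFDerivAt.comp q
        (hdiff q).hasFDerivAt
    rw [h1.fderiv]
    rfl
  have hcoord : ∀ q w, fderiv ℝ Ψ q w = !₂[fderiv ℝ G q w, fderiv ℝ H q w, fderiv ℝ F q w] := by
    intro q w
    ext i
    fin_cases i
    · exact (hco 0 q w).symm
    · exact (hco 1 q w).symm
    · exact (hco 2 q w).symm
  have hinj : Injective (fderiv ℝ Ψ p : E3 →ₗ[ℝ] E3) := by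
    rw [injective_iff_map_eq_zero]
    intro w hw
    have hw' : fderiv ℝ Ψ p w = 0 := hw
    rw [hcoord] at hw'
    apply hker w
    · simpa using congrArg (fun v : E3 => v 0) hw'
    · simpa using congrArg (fun v : E3 => v 1) hw'
    · simpa using congrArg (fun v : E3 => v 2) hw'
  let e : E3 ≃L[ℝ] E3 := (LinearEquiv.ofInjectiveEndo _ hinj).toContinuousLinearEquiv
  have he : (e : E3 →L[ℝ] E3) = fderiv ℝ Ψ p := by
    ext1 w; rfl
  have hder : HasFDerivAt Ψ (e : E3 →L[ℝ] E3) p := by rw [he]; exact (hdiff p).hasFDerivAt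
  let Φ₀ := hΨs.contDiffAt.toOpenPartialHomeomorph Ψ hder (by simp)
  have hΦ₀ : ∀ q, Φ₀ q = Ψ q := fun q => rfl
  have hpΦ : p ∈ Φ₀.source := hΨs.contDiffAt.mem_toOpenPartialHomeomorph_source hder (by simp)
  let A : Set E3 := (fderiv ℝ Ψ) ⁻¹' (range ((↑) : (E3 ≃L[ℝ] E3) → E3 →L[ℝ] E3))
  have hA : IsOpen A := ContinuousLinearEquiv.isOpen.preimage (hΨs.continuous_fderiv (by simp))
  have hpA : p ∈ A := ⟨e, he⟩
  let Φ := Φ₀.restrOpen (A ∩ U) (hA.inter hU)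
  have hsrc : Φ.source = Φ₀.source ∩ (A ∩ U) := rfl
  have hΦ : ∀ q, Φ q = Ψ q := fun q => rfl
  refine ⟨⟨Φ, ⟨hpΦ, hpA, hpU⟩, ?_, ?_, ?_⟩, rfl⟩
  · exact hΨs.contDiffOn
  · intro b hb
    have h1 : Φ.symm b ∈ Φ.source := Φ.map_target hb
    obtain ⟨h2, ⟨e', he'⟩, h3⟩ := h1
    apply ContDiffAt.contDiffWithinAt
    apply Φ.contDiffAt_symm (f₀' := e') hb _ hΨs.contDiffAt
    rw [he']
    exact (hdiff _).hasFDerivAt
  · rintro q ⟨h1, h2, h3⟩
    rw [hM q h3]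
    rfl

end Pool.Agent.Tight
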