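import Mathlib

/-!
# Slice charts with boundary give manifolds with boundary

If `M ⊆ ℝ³` is such that near every point of `M` there is a `C^∞` diffeomorphism `Φ` between open
subsets of `ℝ³` carrying `M` to `{q | q 2 = 0 ∧ 0 ≤ q 0}`, then `M` is a `C^∞` surface with boundary
and the inclusion is a smooth embedding.
-/

open Set Function Topology
open scoped ContDiff Manifold RealInnerProductSpace

namespace Pool.Agent.Tight

/-- Euclidean three-space. -/
abbrev E3 := EuclideanSpace ℝ (Fin 3)
/-- The Euclidean plane. -/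
abbrev E2 := EuclideanSpace ℝ (Fin 2)

/-- the embedding `(a, b) ↦ (a, b, 0)` -/
noncomputable def emb (w : E2) : E3 := !₂[w 0, w 1, 0]
/-- the projection `(a, b, c) ↦ (a, b)` -/
noncomputable def prj (q : E3) : E2 := !₂[q 0, q 1]

lemma contDiff_emb : ContDiff ℝ ∞ emb := by
  rw [contDiff_euclidean]
  intro i
  fin_cases i
  · show ContDiff ℝ ∞ fun w : E2 => w 0
    fun_prop
  · show ContDiff ℝ ∞ fun w : E2 => w 1
    fun_prop
  · show ContDiff ℝ ∞ fun w : E2 => (0:ℝ)
    fun_prop

lemma contDiff_prj : ContDiff ℝ ∞ prj := by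
  rw [contDiff_euclidean]
  intro i
  fin_cases i
  · show ContDiff ℝ ∞ fun w : E3 => w 0
    fun_prop
  · show ContDiff ℝ ∞ fun w : E3 => w 1
    fun_prop

@[simp] lemma emb_zero (w : E2) : emb w 0 = w 0 := rfl
@[simp] lemma emb_one (w : E2) : emb w 1 = w 1 := rfl
@[simp] lemma emb_two (w : E2) : emb w 2 = 0 := rfl
@[simp] lemma prj_zero (w : E3) : prj w 0 = w 0 := rfl
@[simp] lemma prj_one (w : E3) : prj w 1 = w 1 := rfl

lemma prj_emb (w : E2) : prj (emb w) = w := by
  ext i; fin_cases i <;> simp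

lemma emb_prj {q : E3} (h : q 2 = 0) : emb (prj q) = q := by
  ext i; fin_cases i <;> simp [h]

/-- A slice chart of `M` at `p`. -/
structure SliceChart (M : Set E3) (p : E3) where
  /-- the diffeomorphism -/
  Φ : OpenPartialHomeomorph E3 E3
  mem_source : p ∈ Φ.source
  smooth : ContDiffOn ℝ ∞ Φ Φ.source
  smooth_symm : ContDiffOn ℝ ∞ Φ.symm Φ.target
  mem_iff : ∀ q ∈ Φ.source, q ∈ M ↔ (Φ q 2 = 0 ∧ 0 ≤ Φ q 0)

namespace SliceChart

variable {M : Set E3} {p : E3}

lemma symm_emb_mem (S : SliceChart M p) {w : EuclideanHalfSpace 2} (h : emb w.1 ∈ S.Φ.target) :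
    S.Φ.symm (emb w.1) ∈ M := by
  have h1 := S.Φ.map_target h
  rw [S.mem_iff _ h1, S.Φ.right_inv h]
  exact ⟨rfl, w.2⟩

open Classical in
/-- The chart of `M` induced by a slice chart. -/
noncomputable def chart (S : SliceChart M p) (p0 : M) :
    OpenPartialHomeomorph M (EuclideanHalfSpace 2) where
  toFun q := ⟨!₂[max (S.Φ q 0) 0, S.Φ q 1], by simp⟩
  invFun w := if h : S.Φ.symm (emb w.1) ∈ M then ⟨_, h⟩ else p0
  source := {q | (q : E3) ∈ S.Φ.source}
  target := {w | emb w.1 ∈ S.Φ.target}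
  map_source' := by
    intro q hq
    have h1 := (S.mem_iff q hq).1 q.2
    show emb !₂[max (S.Φ q 0) 0, S.Φ q 1] ∈ S.Φ.target
    have : emb !₂[max (S.Φ q 0) 0, S.Φ q 1] = S.Φ q := by
      ext i; fin_cases i <;> simp [h1.1, h1.2, emb]
    rw [this]
    exact S.Φ.map_source hq
  map_target' := by
    intro w hw
    have h := S.symm_emb_mem hw
    show ((if h : S.Φ.symm (emb w.1) ∈ M then (⟨_, h⟩ : M) else p0 : M) : E3) ∈ S.Φ.source
    rw [dif_pos h]
    exact S.Φ.map_target hw
  left_inv' := by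
    intro q hq
    have h1 := (S.mem_iff q hq).1 q.2
    have h2 : emb !₂[max (S.Φ q 0) 0, S.Φ q 1] = S.Φ q := by
      ext i; fin_cases i <;> simp [h1.1, h1.2, emb]
    have h3 : S.Φ.symm (emb !₂[max (S.Φ q 0) 0, S.Φ q 1]) = q := by
      rw [h2]; exact S.Φ.left_inv hq
    apply Subtype.ext
    simp only
    rw [dif_pos (by rw [h3]; exact q.2)]
    exact h3
  right_inv' := by
    intro w hw
    have h := S.symm_emb_mem hw
    apply Subtype.ext
    simp only
    rw [dif_pos h]
    simp only
    rw [S.Φ.right_inv hw]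
    ext i; fin_cases i
    · simpa [emb] using w.2
    · simp [emb]
  open_source := S.Φ.open_source.preimage continuous_subtype_val
  open_target := S.Φ.open_target.preimage
    (contDiff_emb.continuous.comp continuous_subtype_val)
  continuousOn_toFun := by
    have h1 : ContinuousOn (fun q : M => S.Φ (q : E3)) {q | (q : E3) ∈ S.Φ.source} :=
      S.Φ.continuousOn.comp continuous_subtype_val.continuousOn (fun q hq => hq)
    apply Topology.IsInducing.subtypeVal.continuousOn_iff.2
    have h2 : ∀ i : Fin 3, ContinuousOn (fun q : M => S.Φ (q : E3) i) {q | (q : E3) ∈ S.Φ.source} := by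
      intro i
      have : Continuous (fun q : E3 => q i) := by fun_prop
      exact this.comp_continuousOn h1
    have h3 := h2 0
    have h4 := h2 1
    show ContinuousOn (fun q : M => (!₂[max (S.Φ q 0) 0, S.Φ q 1] : E2)) _
    apply (PiLp.continuous_toLp 2 _).comp_continuousOn
    apply continuousOn_pi.2
    intro i
    fin_cases i
    · exact (continuous_id.max continuous_const).comp_continuousOn h3
    · exact h4
  continuousOn_invFun := by
    apply Topology.IsInducing.subtypeVal.continuousOn_iff.2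
    have h1 : ContinuousOn (fun w : EuclideanHalfSpace 2 => S.Φ.symm (emb w.1))
        {w | emb w.1 ∈ S.Φ.target} :=
      S.Φ.continuousOn_symm.comp
        (contDiff_emb.continuous.comp continuous_subtype_val).continuousOn (fun q hq => hq)
    apply h1.congr
    intro w hw
    have h := S.symm_emb_mem hw
    show ((if h : S.Φ.symm (emb w.1) ∈ M then (⟨_, h⟩ : M) else p0 : M) : E3) = _
    rw [dif_pos h]

lemma chart_source (S : SliceChart M p) (p0 : M) :
    (S.chart p0).source = {q : M | (q : E3) ∈ S.Φ.source} := rfl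

lemma chart_target (S : SliceChart M p) (p0 : M) :
    (S.chart p0).target = {w | emb w.1 ∈ S.Φ.target} := rfl

lemma chart_apply (S : SliceChart M p) (p0 : M) {q : M} (hq : (q : E3) ∈ S.Φ.source) :
    (S.chart p0 q).1 = prj (S.Φ q) := by
  have h1 := (S.mem_iff q hq).1 q.2
  show (!₂[max (S.Φ q 0) 0, S.Φ q 1] : E2) = _
  ext i; fin_cases i <;> simp [h1.2]

lemma chart_symm_apply (S : SliceChart M p) (p0 : M) {w : EuclideanHalfSpace 2}
    (hw : emb w.1 ∈ S.Φ.target) :
    ((S.chart p0).symm w : E3) = S.Φ.symm (emb w.1) := by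
  classical
  have h := S.symm_emb_mem hw
  unfold chart
  simp only [OpenPartialHomeomorph.mk_coe_symm, PartialEquiv.coe_symm_mk]
  rw [dif_pos h]

end SliceChart

/-- The charted space structure given by slice charts. -/
@[reducible] noncomputable def chartedSpace {M : Set E3} (S : ∀ p : M, SliceChart M p) :
    ChartedSpace (EuclideanHalfSpace 2) M where
  atlas := range fun p => (S p).chart p
  chartAt p := (S p).chart p
  mem_chart_source p := (S p).mem_source
  chart_mem_atlas p := mem_range_self p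

lemma isManifold {M : Set E3} (S : ∀ p : M, SliceChart M p) :
    let _ := chartedSpace S
    IsManifold (𝓡∂ 2) ∞ M := by
  letI := chartedSpace S
  apply isManifold_of_contDiffOn
  rintro e e' ⟨p, rfl⟩ ⟨p', rfl⟩
  have hI : ∀ w ∈ range (𝓡∂ 2), (((𝓡∂ 2).symm w).1 : E2) = w := by
    rintro w ⟨h, rfl⟩
    rw [ModelWithCorners.left_inv]; rfl
  have key : ContDiffOn ℝ ∞ (fun w : E2 => prj ((S p').Φ ((S p).Φ.symm (emb w))))
      {w | emb w ∈ (S p).Φ.target ∧ (S p).Φ.symm (emb w) ∈ (S p').Φ.source} := by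
    apply contDiff_prj.comp_contDiffOn
    apply (S p').smooth.comp
    · apply (S p).smooth_symm.comp contDiff_emb.contDiffOn
      intro w hw; exact hw.1
    · intro w hw; exact hw.2
  apply (key.mono _).congr
  · rintro w ⟨hw, hr⟩
    have hw' : (𝓡∂ 2).symm w ∈ (((S p).chart p).symm ≫ₕ ((S p').chart p')).source := hw
    rw [OpenPartialHomeomorph.trans_source] at hw'
    have h1 : emb ((𝓡∂ 2).symm w).1 ∈ (S p).Φ.target := hw'.1
    have h2 : (((S p).chart p).symm ((𝓡∂ 2).symm w) : E3) ∈ (S p').Φ.source := hw'.2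
    show (((S p').chart p' (((S p).chart p).symm ((𝓡∂ 2).symm w))).1 : E2) = _
    rw [SliceChart.chart_apply _ _ h2, SliceChart.chart_symm_apply _ _ h1, hI w hr]
  · rintro w ⟨hw, hr⟩
    have hw' : (𝓡∂ 2).symm w ∈ (((S p).chart p).symm ≫ₕ ((S p').chart p')).source := hw
    rw [OpenPartialHomeomorph.trans_source] at hw'
    have h1 : emb ((𝓡∂ 2).symm w).1 ∈ (S p).Φ.target := hw'.1
    have h2 : (((S p).chart p).symm ((𝓡∂ 2).symm w) : E3) ∈ (S p').Φ.source := hw'.2
    rw [SliceChart.chart_symm_apply _ _ h1] at h2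
    rw [hI w hr] at h1 h2
    exact ⟨h1, h2⟩

lemma mem_boundary_iff {M : Set E3} (S : ∀ p : M, SliceChart M p) (p : M) :
    let _ := chartedSpace S
    p ∈ (𝓡∂ 2).boundary M ↔ (S p).Φ p 0 = 0 := by
  letI := chartedSpace S
  show (𝓡∂ 2).IsBoundaryPoint p ↔ _
  rw [ModelWithCorners.isBoundaryPoint_iff, frontier_range_modelWithCornersEuclideanHalfSpace]
  have h : extChartAt (𝓡∂ 2) p p = prj ((S p).Φ p) :=
    SliceChart.chart_apply (S p) p (S p).mem_source
  rw [h]
  show 0 = (S p).Φ p 0 ↔ _
  exact eq_comm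

/-- `(w, c) ↦ (w 0, w 1, c)`. -/
noncomputable def splitEquiv : (E2 × ℝ) ≃L[ℝ] E3 :=
  LinearEquiv.toContinuousLinearEquiv
  { toFun := fun w => !₂[w.1 0, w.1 1, w.2]
    invFun := fun q => (!₂[q 0, q 1], q 2)
    map_add' := by
      intro a b; ext i; fin_cases i <;> simp
    map_smul' := by
      intro c a; ext i; fin_cases i <;> simp
    left_inv := by
      intro w
      ext i
      · fin_cases i <;> simp
      · simp
    right_inv := by
      intro q; ext i; fin_cases i <;> simp }

lemma splitEquiv_apply (w : E2) : splitEquiv (w, 0) = emb w := rfl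

lemma mem_maximalAtlas_E3 {M : Set E3} {p : E3} (S : SliceChart M p) :
    S.Φ ∈ IsManifold.maximalAtlas 𝓘(ℝ, E3) ∞ E3 := by
  apply StructureGroupoid.mem_maximalAtlas_of_mem_groupoid
  rw [contDiffGroupoid, mem_groupoid_of_pregroupoid]
  constructor
  · show ContDiffOn ℝ ∞ _ _
    simpa using S.smooth
  · show ContDiffOn ℝ ∞ _ _
    simpa using S.smooth_symm

lemma isSmoothEmbedding {M : Set E3} (S : ∀ p : M, SliceChart M p) :
    let _ := chartedSpace S
    Manifold.IsSmoothEmbedding (𝓡∂ 2) 𝓘(ℝ, E3) ∞ (Subtype.val : M → E3) := by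
  letI := chartedSpace S
  haveI := isManifold S
  refine ⟨?_, Topology.IsEmbedding.subtypeVal⟩
  refine Manifold.IsImmersionOfComplement.isImmersion (F := ℝ) ?_
  intro p
  apply Manifold.IsImmersionAtOfComplement.mk_of_charts splitEquiv ((S p).chart p) (S p).Φ
    (S p).mem_source (S p).mem_source (IsManifold.chart_mem_maximalAtlas p)
    (mem_maximalAtlas_E3 (S p))
  · intro q hq; exact hq
  · intro w hw
    rw [OpenPartialHomeomorph.extend_target] at hw
    obtain ⟨h1, h2⟩ := hw
    have h1' : emb ((𝓡∂ 2).symm w).1 ∈ (S p).Φ.target := h1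
    have hI : (((𝓡∂ 2).symm w).1 : E2) = w := by
      obtain ⟨h, rfl⟩ := h2
      rw [ModelWithCorners.left_inv]; rfl
    have h3 : (((S p).chart p).symm ((𝓡∂ 2).symm w) : E3) = (S p).Φ.symm (emb w) := by
      rw [SliceChart.chart_symm_apply _ _ h1', hI]
    show (S p).Φ (((S p).chart p).symm ((𝓡∂ 2).symm w) : E3) = splitEquiv (w, 0)
    rw [h3, splitEquiv_apply, (S p).Φ.right_inv (by rwa [hI] at h1')]

end Pool.Agent.Tight
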