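import Pool.Agent.Lib_helper4.Tight.Model

/-!
# The two-piece property of the surface
-/

open Set Function Topology

namespace Pool.Agent.Tight

/-- the point `(x, y, z)` -/
noncomputable def pt (x y z : ℝ) : E3 := !₂[x, y, z]

@[simp] lemma pt_zero (x y z : ℝ) : pt x y z 0 = x := rfl
@[simp] lemma pt_one (x y z : ℝ) : pt x y z 1 = y := rfl
@[simp] lemma pt_two (x y z : ℝ) : pt x y z 2 = z := rfl
lemma pt_eta (q : E3) : pt (q 0) (q 1) (q 2) = q := by
  ext i; fin_cases i <;> rfl

lemma continuousOn_pt {s : Set ℝ} {f g h : ℝ → ℝ} (hf : ContinuousOn f s) (hg : ContinuousOn g s)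
    (hh : ContinuousOn h s) : ContinuousOn (fun t => pt (f t) (g t) (h t)) s := by
  apply (PiLp.continuous_toLp 2 _).comp_continuousOn
  apply continuousOn_pi.2
  intro i
  fin_cases i
  · exact hf
  · exact hg
  · exact hh

lemma joined_of_curve {A : Set E3} {γ : ℝ → E3} {a b : ℝ} (hab : a ≤ b)
    (hγ : ContinuousOn γ (Icc a b)) (h : ∀ t ∈ Icc a b, γ t ∈ A) :
    JoinedIn A (γ a) (γ b) := by
  have h1 : IsPathConnected (Icc a b) :=
    (convex_Icc a b).isPathConnected ⟨a, left_mem_Icc.2 hab⟩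
  have h2 := h1.image' hγ
  have h3 := h2.joinedIn (γ a) (mem_image_of_mem _ (left_mem_Icc.2 hab)) (γ b)
    (mem_image_of_mem _ (right_mem_Icc.2 hab))
  exact h3.mono (by rintro _ ⟨t, ht, rfl⟩; exact h t ht)

/-- dichotomy for convex functions and upward closed predicates -/
lemma convex_dichotomy {P : ℝ → Prop} (hP : ∀ s t, s ≤ t → P s → P t) {g : ℝ → ℝ} {a b z : ℝ}
    (hg : ConvexOn ℝ (Icc a b) g) (hz : z ∈ Icc a b) (h : P (g z)) :
    (∀ t ∈ Icc z b, P (g t)) ∨ (∀ t ∈ Icc a z, P (g t)) := by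
  by_contra hc
  push Not at hc
  obtain ⟨⟨t1, h1, h1'⟩, t2, h2, h2'⟩ := hc
  have h3 : g z ≤ max (g t2) (g t1) :=
    hg.le_max_of_mem_Icc ⟨h2.1, h2.2.trans hz.2⟩ ⟨hz.1.trans h1.1, h1.2⟩ ⟨h2.2, h1.1⟩
  have h4 := hP _ _ h3 h
  rcases max_choice (g t2) (g t1) with h5 | h5
  · rw [h5] at h4; exact h2' h4
  · rw [h5] at h4; exact h1' h4

lemma concave_between {P : ℝ → Prop} (hP : ∀ s t, s ≤ t → P s → P t) {g : ℝ → ℝ} {D : Set ℝ}
    {z w t : ℝ} (hg : ConcaveOn ℝ D g) (hz : z ∈ D) (hw : w ∈ D) (ht : t ∈ Icc z w)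
    (h1 : P (g z)) (h2 : P (g w)) : P (g t) := by
  have h3 : min (g z) (g w) ≤ g t := hg.min_le_of_mem_Icc hz hw ht
  rcases min_choice (g z) (g w) with h5 | h5
  · rw [h5] at h3; exact hP _ _ h3 h1
  · rw [h5] at h3; exact hP _ _ h3 h2

lemma concaveOn_sqrt_one_sub {D : Set ℝ} {f : ℝ → ℝ} (hf : ConvexOn ℝ D f)
    (h1 : ∀ x ∈ D, f x ≤ 1) : ConcaveOn ℝ D (fun x => Real.sqrt (1 - f x)) := by
  refine ⟨hf.1, ?_⟩
  intro x hx y hy a b ha hb hab
  have e1 : 0 ≤ 1 - f x := by linarith [h1 x hx]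
  have e2 : 0 ≤ 1 - f y := by linarith [h1 y hy]
  apply Real.le_sqrt_of_sq_le
  have h2 := hf.2 hx hy ha hb hab
  simp only [smul_eq_mul] at h2 ⊢
  have s1 := Real.sq_sqrt e1
  have s2 := Real.sq_sqrt e2
  set u := Real.sqrt (1 - f x)
  set v := Real.sqrt (1 - f y)
  have h3 : (a * u + b * v) ^ 2 ≤ a * u ^ 2 + b * v ^ 2 := by
    have : a * u ^ 2 + b * v ^ 2 - (a * u + b * v) ^ 2 = a * b * (u - v) ^ 2 := by
      have hb' : b = 1 - a := by linarith
      subst hb'
      ring
    have h4 : 0 ≤ a * b * (u - v) ^ 2 := by positivity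
    linarith
  rw [s1, s2] at h3
  nlinarith

/-- `√(1 - ss z)` -/
noncomputable def hs (z : ℝ) : ℝ := Real.sqrt (1 - ss z)
/-- `√(1 - q * tt z)` -/
noncomputable def ht (q z : ℝ) : ℝ := Real.sqrt (1 - q * tt z)

lemma hs_sq {z : ℝ} (h : z ≤ 3 / 2) : hs z ^ 2 = 1 - ss z :=
  Real.sq_sqrt (by linarith [ss_le_one.2 h])
lemma hs_nonneg (z : ℝ) : 0 ≤ hs z := Real.sqrt_nonneg _
lemma hs_anti : Antitone hs := fun a b h => Real.sqrt_le_sqrt (by linarith [ss_mono h])
lemma continuous_hs : Continuous hs := Real.continuous_sqrt.comp (continuous_const.sub continuous_ss)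
lemma hs_one {z : ℝ} (h : z ≤ 1) : hs z = 1 := by simp [hs, ss_zero h]
lemma hs_top : hs (3 / 2) = 0 := by simp [hs, ss_top]
lemma concaveOn_hs : ConcaveOn ℝ (Iic (3 / 2)) hs :=
  concaveOn_sqrt_one_sub convexOn_ss (fun _ h => ss_le_one.2 h)

lemma tt_anti : AntitoneOn tt (Ioc (-1) 1) := by
  intro x hx y hy hxy
  rcases eq_or_lt_of_le hy.2 with h | h
  · rw [h, tt_zero le_rfl]; exact tt_nonneg _
  have hx1 : x < 1 := lt_of_le_of_lt hxy h
  have : AntitoneOn tt (Ioo (-1) 1) := by
    apply antitoneOn_of_deriv_nonpos (convex_Ioo _ _)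
    · intro z hz; exact (continuousAt_tt hz.1).continuousWithinAt
    · intro z hz
      rw [interior_Ioo] at hz
      exact (hasDerivAt_tt hz.1 hz.2).differentiableAt.differentiableWithinAt
    · intro z hz
      rw [interior_Ioo] at hz
      rw [(hasDerivAt_tt hz.1 hz.2).deriv]
      have := tt_nonneg z
      have h2 : 0 ≤ 4 * (1 - z ^ 2)⁻¹ ^ 2 * tt z := by positivity
      linarith
  exact this ⟨hx.1, hx1⟩ ⟨hy.1, h⟩ hxy

lemma continuousOn_ht (q : ℝ) : ContinuousOn (ht q) (Ioc (-1) 1) := by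
  apply Real.continuous_sqrt.comp_continuousOn
  apply continuousOn_const.sub
  apply continuousOn_const.mul
  intro z hz
  exact (continuousAt_tt hz.1).continuousWithinAt

lemma mem_MM_up {x y z : ℝ} (h : -1 < z) (h1 : z ≤ 1) (hx : x ∈ Icc (-1) 1)
    (hy : y ^ 2 = 1 - (1 - x ^ 2) * tt z) : pt x y z ∈ MM := by
  rw [mem_MM_iff_of_gt (by simpa using h)]
  refine ⟨hx, ?_⟩
  simp only [pt_zero, pt_one, pt_two, ss_zero h1]
  linarith

lemma mem_MM_top {x y z : ℝ} (h : 1 ≤ z) (hx : x ∈ Icc (-1) 1)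
    (hy : y ^ 2 = 1 - ss z) : pt x y z ∈ MM := by
  rw [mem_MM_iff_of_gt (by simp; linarith)]
  refine ⟨hx, ?_⟩
  simp only [pt_zero, pt_one, pt_two, tt_zero h]
  linarith

lemma mem_MM_bot {x y z : ℝ} (h : z ≤ -1) (hy : y ∈ Icc (-1) 1)
    (hx : x ^ 2 = 1 - ss (-z)) : pt x y z ∈ MM := by
  rw [mem_MM_iff_of_lt (by simp; linarith)]
  refine ⟨hy, ?_⟩
  simp only [pt_zero, pt_one, pt_two, tt_zero (show 1 ≤ -z by linarith)]
  linarith

lemma ridge_mem {x y z : ℝ} (hx : x = 1 ∨ x = -1) (hy : y = 1 ∨ y = -1) (hz : z ∈ Icc (-1) 1) :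
    pt x y z ∈ MM := by
  have hx2 : x ^ 2 = 1 := by rcases hx with rfl | rfl <;> norm_num
  have hy2 : y ^ 2 = 1 := by rcases hy with rfl | rfl <;> norm_num
  have hx' : x ∈ Icc (-1 : ℝ) 1 := by rcases hx with rfl | rfl <;> constructor <;> norm_num
  have hy' : y ∈ Icc (-1 : ℝ) 1 := by rcases hy with rfl | rfl <;> constructor <;> norm_num
  rcases eq_or_lt_of_le hz.1 with h | h
  · exact mem_MM_bot (by linarith) hy' (by rw [← h, neg_neg, ss_zero le_rfl, hx2]; ring)
  · exact mem_MM_up h hz.2 hx' (by rw [hx2, hy2]; ring)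

section main

variable {a b c : ℝ} (ha : 0 ≤ a) (hb : 0 ≤ b) (hc : 0 ≤ c)
  {P : ℝ → Prop} (hP : ∀ s t, s ≤ t → P s → P t)

/-- superlevel set -/
def AA (a b c : ℝ) (P : ℝ → Prop) : Set E3 := {q | q ∈ MM ∧ P (a * q 0 + b * q 1 + c * q 2)}

lemma mem_AA {x y z : ℝ} : pt x y z ∈ AA a b c P ↔ (pt x y z ∈ MM ∧ P (a * x + b * y + c * z)) :=
  Iff.rfl

include hP hb hc in
/-- going up on the right half of the saddle part -/
lemma up_right {x y z : ℝ} (h : pt x y z ∈ AA a b c P) (hz : -1 < z) (hz1 : z ≤ 1) (hy : 0 ≤ y) :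
    JoinedIn (AA a b c P) (pt x y z) (pt x 1 1) := by
  obtain ⟨hM, hPz⟩ := mem_AA.1 h
  have hM' := (mem_MM_iff_of_gt (by simpa using hz)).1 hM
  simp only [pt_zero, pt_one, pt_two, ss_zero hz1] at hM'
  set q := 1 - x ^ 2 with hq
  have hq0 : 0 ≤ q := by nlinarith [hM'.1.1, hM'.1.2]
  have hle : ∀ t ∈ Icc z 1, q * tt t ≤ q * tt z := fun t ht =>
    mul_le_mul_of_nonneg_left (tt_anti ⟨hz, hz1⟩ ⟨lt_of_lt_of_le hz ht.1, ht.2⟩ ht.1) hq0
  have hsq : ∀ t ∈ Icc z 1, ht q t ^ 2 = 1 - q * tt t := fun t ht =>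
    Real.sq_sqrt (by nlinarith [hle t ht, sq_nonneg y])
  have hmono : ∀ t ∈ Icc z 1, y ≤ ht q t := fun t ht =>
    Real.le_sqrt_of_sq_le (by linarith [hle t ht])
  have e1 : ht q z = y := by
    rw [ht, show 1 - q * tt z = y ^ 2 by linarith]; exact Real.sqrt_sq hy
  have e2 : ht q 1 = 1 := by simp [ht, tt_zero le_rfl]
  have := joined_of_curve (A := AA a b c P) (γ := fun t => pt x (ht q t) t) hz1
    (continuousOn_pt continuousOn_const
      ((continuousOn_ht q).mono (fun t ht => ⟨lt_of_lt_of_le hz ht.1, ht.2⟩)) continuousOn_id)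
    (fun t ht => by
      refine ⟨mem_MM_up (lt_of_lt_of_le hz ht.1) ht.2 hM'.1 (by rw [hsq t ht]), ?_⟩
      refine hP _ _ ?_ hPz
      simp only [pt_zero, pt_one, pt_two]
      have := mul_le_mul_of_nonneg_left (hmono t ht) hb
      have := mul_le_mul_of_nonneg_left ht.1 hc
      linarith)
  simpa only [e1, e2] using this

include hP hb hc in
/-- from a point of the saddle part on the left half -/
lemma from_left {x y z : ℝ} (h : pt x y z ∈ AA a b c P) (hz : -1 < z) (hz1 : z ≤ 1) (hy : y ≤ 0) :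
    JoinedIn (AA a b c P) (pt x y z) (pt x (-1) 1) ∨
    JoinedIn (AA a b c P) (pt x y z) (pt x 1 1) := by
  obtain ⟨hM, hPz⟩ := mem_AA.1 h
  have hM' := (mem_MM_iff_of_gt (by simpa using hz)).1 hM
  simp only [pt_zero, pt_one, pt_two, ss_zero hz1] at hM'
  set q := 1 - x ^ 2 with hq
  have hq0 : 0 ≤ q := by nlinarith [hM'.1.1, hM'.1.2]
  have hty : q * tt z ≤ 1 := by nlinarith [sq_nonneg y]
  -- general facts above a level `w`
  have gen : ∀ w, -1 < w → w ≤ z → q * tt w ≤ 1 →
      ContinuousOn (ht q) (Icc w 1) ∧ (∀ t ∈ Icc w 1, ht q t ^ 2 = 1 - q * tt t) ∧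
      ConvexOn ℝ (Icc w 1) (fun t => a * x + b * (-ht q t) + c * t) := by
    intro w hw1 hw2 hw3
    have hle : ∀ t ∈ Icc w 1, q * tt t ≤ 1 := fun t ht =>
      (mul_le_mul_of_nonneg_left (tt_anti ⟨hw1, hw2.trans hz1⟩
        ⟨lt_of_lt_of_le hw1 ht.1, ht.2⟩ ht.1) hq0).trans hw3
    refine ⟨(continuousOn_ht q).mono (fun t ht => ⟨lt_of_lt_of_le hw1 ht.1, ht.2⟩),
      fun t ht => Real.sq_sqrt (by linarith [hle t ht]), ?_⟩
    have c1 : ConvexOn ℝ (Icc w 1) (fun t => q * tt t) :=
      (convexOn_tt.subset (fun t ht => ⟨lt_of_lt_of_le hw1 ht.1, ht.2⟩) (convex_Icc _ _)).smul hq0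
    have c2 : ConcaveOn ℝ (Icc w 1) (ht q) := concaveOn_sqrt_one_sub c1 hle
    have c3 : ConvexOn ℝ (Icc w 1) (fun t => b * (-ht q t)) := c2.neg.smul hb
    have c4 : ConvexOn ℝ (Icc w 1) (fun t : ℝ => c * t) := (convexOn_id (convex_Icc _ _)).smul hc
    have c5 := (c3.add c4).add_const (a * x)
    refine c5.congr ?_
    intro t _
    simp only [Pi.add_apply]
    ring
  have e1 : -ht q z = y := by
    rw [ht, show 1 - q * tt z = (-y) ^ 2 by linarith [neg_sq y], Real.sqrt_sq (by linarith)]; ring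
  have e2 : ht q 1 = 1 := by simp [ht, tt_zero le_rfl]
  -- going up along the left half, when allowed
  have goup : (∀ t ∈ Icc z 1, P (a * x + b * (-ht q t) + c * t)) →
      JoinedIn (AA a b c P) (pt x y z) (pt x (-1) 1) := by
    intro hup
    obtain ⟨g1, g2, _⟩ := gen z hz le_rfl hty
    have := joined_of_curve (A := AA a b c P) (γ := fun t => pt x (-ht q t) t) hz1
      (continuousOn_pt continuousOn_const g1.neg continuousOn_id)
      (fun t ht => ⟨mem_MM_up (lt_of_lt_of_le hz ht.1) ht.2 hM'.1 (by rw [neg_sq, g2 t ht]),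
        hup t ht⟩)
    simpa only [e1, e2] using this
  rcases eq_or_lt_of_le hq0 with hq1 | hq1
  · left
    apply goup
    intro t ht'
    have : ht q t = ht q z := by simp [ht, ← hq1]
    rw [this, e1]
    refine hP _ _ ?_ hPz
    have := mul_le_mul_of_nonneg_left ht'.1 hc
    linarith
  · -- find the bottom of the section
    have hcont : ContinuousOn (fun w => q * psi (1 - w) - psi (1 + w)) (Icc (-1) z) := by
      apply Continuous.continuousOn
      exact (continuous_const.mul (continuous_psi.comp (by fun_prop))).sub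
        (continuous_psi.comp (by fun_prop))
    have hpz : 0 < psi (1 + z) := psi_pos (by linarith)
    have hend : q * psi (1 - z) - psi (1 + z) ≤ 0 := by
      rw [tt] at hty
      have := (mul_le_mul_of_nonneg_right hty hpz.le)
      have h2 : q * (psi (1 - z) / psi (1 + z)) * psi (1 + z) = q * psi (1 - z) := by
        field_simp
      linarith
    have hstart : 0 < q * psi (1 - -1) - psi (1 + -1) := by
      have h1 : psi (1 + -1) = 0 := psi_zero (by norm_num)
      have h2 : 0 < psi (1 - -1) := psi_pos (by norm_num)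
      rw [h1, sub_zero]; positivity
    obtain ⟨w, hw, hw0⟩ := intermediate_value_Icc' hz.le hcont ⟨hend, hstart.le⟩
    have hw1 : -1 < w := by
      rcases eq_or_lt_of_le hw.1 with h | h
      · rw [← h] at hw0; simp only at hw0; linarith
      · exact h
    have hpw : 0 < psi (1 + w) := psi_pos (by linarith)
    have hw2 : q * tt w = 1 := by
      simp only at hw0
      rw [tt]; field_simp; linarith
    obtain ⟨g1, g2, g3⟩ := gen w hw1 hw.2 hw2.le
    rcases convex_dichotomy hP g3 ⟨hw.2, hz1⟩ (by simp only [e1]; exact hPz) with h | h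
    · left; exact goup h
    · right
      have e3 : ht q w = 0 := by simp [ht, hw2]
      have j1 := joined_of_curve (A := AA a b c P) (γ := fun t => pt x (-ht q t) t) hw.2
        (continuousOn_pt continuousOn_const
          (g1.mono (Icc_subset_Icc le_rfl hz1)).neg continuousOn_id)
        (fun t ht => ⟨mem_MM_up (lt_of_lt_of_le hw1 ht.1) (ht.2.trans hz1) hM'.1
          (by rw [neg_sq, g2 t ⟨ht.1, ht.2.trans hz1⟩]), h t ht⟩)
      simp only [e1, e3, neg_zero] at j1
      exact j1.symm.trans (up_right hb hc hP j1.source_mem hw1 (hw.2.trans hz1) le_rfl)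

include hP hb hc in
/-- going up on the left half of the top part -/
lemma top_left {x y z : ℝ} (h : pt x y z ∈ AA a b c P) (hz : 1 ≤ z) (hy : y ≤ 0) :
    JoinedIn (AA a b c P) (pt x y z) (pt x 0 (3 / 2)) := by
  obtain ⟨hM, hPz⟩ := mem_AA.1 h
  have hz2 : z ≤ 3 / 2 := z_le hM
  have hM' := (mem_MM_iff_of_gt (by simp; linarith)).1 hM
  simp only [pt_zero, pt_one, pt_two, tt_zero hz] at hM'
  have e1 : -hs z = y := by
    rw [hs, show 1 - ss z = (-y) ^ 2 by linarith [neg_sq y], Real.sqrt_sq (by linarith)]; ring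
  have := joined_of_curve (A := AA a b c P) (γ := fun t => pt x (-hs t) t) hz2
    (continuousOn_pt continuousOn_const continuous_hs.neg.continuousOn continuousOn_id)
    (fun t ht => by
      refine ⟨mem_MM_top (hz.trans ht.1) hM'.1 (by rw [neg_sq, hs_sq ht.2]), ?_⟩
      refine hP _ _ ?_ hPz
      simp only [pt_zero, pt_one, pt_two]
      have h1 : y ≤ -hs t := by rw [← e1]; linarith [hs_anti ht.1]
      have := mul_le_mul_of_nonneg_left h1 hb
      have := mul_le_mul_of_nonneg_left ht.1 hc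
      linarith)
  simpa only [e1, hs_top, neg_zero] using this

include hP in
/-- moving on the right half of the top part -/
lemma top_right {x y z w : ℝ} (hb : 0 ≤ b) (h : pt x y z ∈ AA a b c P) (hz : 1 ≤ z) (hy : 0 ≤ y)
    (hw : w ∈ Icc 1 (3 / 2)) (hmax : ∀ t ∈ Icc (1 : ℝ) (3 / 2), b * hs t + c * t ≤ b * hs w + c * w) :
    JoinedIn (AA a b c P) (pt x y z) (pt x (hs w) w) := by
  obtain ⟨hM, hPz⟩ := mem_AA.1 h
  have hz2 : z ≤ 3 / 2 := z_le hM
  have hM' := (mem_MM_iff_of_gt (by simp; linarith)).1 hM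
  simp only [pt_zero, pt_one, pt_two, tt_zero hz] at hM'
  have e1 : hs z = y := by
    rw [hs, show 1 - ss z = y ^ 2 by linarith, Real.sqrt_sq hy]
  have conc : ConcaveOn ℝ (Iic (3 / 2)) (fun t => a * x + b * hs t + c * t) := by
    have c3 : ConcaveOn ℝ (Iic (3 / 2)) (fun t => b * hs t) := concaveOn_hs.smul hb
    have c4 : ConcaveOn ℝ (Iic (3 / 2)) (fun t : ℝ => c * t) :=
      (LinearMap.mulLeft ℝ c).concaveOn (convex_Iic _)
    have c5 := (c3.add c4).add_const (a * x)
    refine c5.congr ?_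
    intro t _
    simp only [Pi.add_apply]
    ring
  have hPz' : P (a * x + b * hs z + c * z) := by rw [e1]; exact hPz
  have hPw : P (a * x + b * hs w + c * w) := by
    refine hP _ _ ?_ hPz'
    have := hmax z ⟨hz, hz2⟩
    linarith
  rcases le_total z w with hzw | hzw
  · have := joined_of_curve (A := AA a b c P) (γ := fun t => pt x (hs t) t) hzw
      (continuousOn_pt continuousOn_const continuous_hs.continuousOn continuousOn_id)
      (fun t ht => ⟨mem_MM_top (hz.trans ht.1) hM'.1 (by rw [hs_sq (ht.2.trans hw.2)]),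
        concave_between (D := Iic (3 / 2)) (g := fun t => a * x + b * hs t + c * t) hP conc
          hz2 hw.2 ht hPz' hPw⟩)
    simpa only [e1] using this
  · have := joined_of_curve (A := AA a b c P) (γ := fun t => pt x (hs t) t) hzw
      (continuousOn_pt continuousOn_const continuous_hs.continuousOn continuousOn_id)
      (fun t ht => ⟨mem_MM_top (hw.1.trans ht.1) hM'.1 (by rw [hs_sq (ht.2.trans hz2)]),
        concave_between (D := Iic (3 / 2)) (g := fun t => a * x + b * hs t + c * t) hP conc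
          hw.2 hz2 ht hPw hPz'⟩)
    have := this.symm
    simpa only [e1] using this

include hP ha in
/-- moving in the `x`-direction on the top part -/
lemma top_x {x w : ℝ} (h : pt x (hs w) w ∈ AA a b c P) (hw : w ∈ Icc 1 (3 / 2)) :
    JoinedIn (AA a b c P) (pt x (hs w) w) (pt 1 (hs w) w) := by
  obtain ⟨hM, hPz⟩ := mem_AA.1 h
  have hx := hM.1
  simp only [pt_zero] at hx
  exact joined_of_curve (A := AA a b c P) (γ := fun t => pt t (hs w) w) hx.2
    (continuousOn_pt continuousOn_id continuousOn_const continuousOn_const)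
    (fun t ht => by
      refine ⟨mem_MM_top hw.1 ⟨hx.1.trans ht.1, ht.2⟩ (hs_sq hw.2), ?_⟩
      refine hP _ _ ?_ hPz
      simp only [pt_zero, pt_one, pt_two]
      have := mul_le_mul_of_nonneg_left ht.1 ha
      linarith)

include hP hc ha in
/-- going up on the right half of the bottom part -/
lemma bot_right {x y z : ℝ} (h : pt x y z ∈ AA a b c P) (hz : z ≤ -1) (hx : 0 ≤ x) :
    JoinedIn (AA a b c P) (pt x y z) (pt 1 y (-1)) := by
  obtain ⟨hM, hPz⟩ := mem_AA.1 h
  have hz2 : -(3 / 2) ≤ z := le_z hM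
  have hM' := (mem_MM_iff_of_lt (by simp; linarith)).1 hM
  simp only [pt_zero, pt_one, pt_two, tt_zero (show 1 ≤ -z by linarith)] at hM'
  have e1 : hs (-z) = x := by
    rw [hs, show 1 - ss (-z) = x ^ 2 by linarith, Real.sqrt_sq hx]
  have := joined_of_curve (A := AA a b c P) (γ := fun t => pt (hs (-t)) y t) hz
    (continuousOn_pt (continuous_hs.comp continuous_neg).continuousOn continuousOn_const
      continuousOn_id)
    (fun t ht => by
      refine ⟨mem_MM_bot ht.2 hM'.1 (by rw [hs_sq (by linarith [ht.1])]), ?_⟩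
      refine hP _ _ ?_ hPz
      simp only [pt_zero, pt_one, pt_two]
      have h1 : x ≤ hs (-t) := by rw [← e1]; exact hs_anti (by linarith [ht.1])
      have := mul_le_mul_of_nonneg_left h1 ha
      have := mul_le_mul_of_nonneg_left ht.1 hc
      linarith)
  have e2 : hs (-(-1)) = 1 := hs_one (by norm_num)
  simpa only [e1, e2] using this

include hP hc ha in
/-- from a point on the left half of the bottom part -/
lemma bot_left {x y z : ℝ} (h : pt x y z ∈ AA a b c P) (hz : z ≤ -1) (hx : x ≤ 0) :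
    JoinedIn (AA a b c P) (pt x y z) (pt (-1) y (-1)) ∨
    JoinedIn (AA a b c P) (pt x y z) (pt 1 y (-1)) := by
  obtain ⟨hM, hPz⟩ := mem_AA.1 h
  have hz2 : -(3 / 2) ≤ z := le_z hM
  have hM' := (mem_MM_iff_of_lt (by simp; linarith)).1 hM
  simp only [pt_zero, pt_one, pt_two, tt_zero (show 1 ≤ -z by linarith)] at hM'
  have e1 : -hs (-z) = x := by
    rw [hs, show 1 - ss (-z) = (-x) ^ 2 by linarith [neg_sq x], Real.sqrt_sq (by linarith)]; ring
  have e2 : hs (-(-1)) = 1 := hs_one (by norm_num)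
  have conv : ConvexOn ℝ (Icc (-(3 / 2)) (-1)) (fun t => a * (-hs (-t)) + b * y + c * t) := by
    have c1 : ConcaveOn ℝ (Icc (-(3 / 2)) (-1)) (fun t => hs (-t)) := by
      have := concaveOn_hs.comp_linearMap (-LinearMap.id : ℝ →ₗ[ℝ] ℝ)
      refine this.subset ?_ (convex_Icc _ _)
      intro t ht
      show -t ≤ 3 / 2
      linarith [ht.1]
    have c3 : ConvexOn ℝ (Icc (-(3 / 2)) (-1)) (fun t => a * (-hs (-t))) := c1.neg.smul ha
    have c4 : ConvexOn ℝ (Icc (-(3 / 2)) (-1)) (fun t : ℝ => c * t) :=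
      (convexOn_id (convex_Icc _ _)).smul hc
    have c5 := (c3.add c4).add_const (b * y)
    refine c5.congr ?_
    intro t _
    simp only [Pi.add_apply]
    ring
  have mem : ∀ t ∈ Icc (-(3 / 2) : ℝ) (-1), pt (-hs (-t)) y t ∈ MM := fun t ht =>
    mem_MM_bot ht.2 hM'.1 (by rw [neg_sq, hs_sq (by linarith [ht.1])])
  rcases convex_dichotomy hP conv ⟨hz2, hz⟩ (by simp only [e1]; exact hPz) with h1 | h1
  · left
    have := joined_of_curve (A := AA a b c P) (γ := fun t => pt (-hs (-t)) y t) hz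
      (continuousOn_pt (continuous_hs.comp continuous_neg).neg.continuousOn continuousOn_const
        continuousOn_id)
      (fun t ht => ⟨mem t ⟨hz2.trans ht.1, ht.2⟩, h1 t ht⟩)
    simpa only [e1, e2] using this
  · right
    have := joined_of_curve (A := AA a b c P) (γ := fun t => pt (-hs (-t)) y t) hz2
      (continuousOn_pt (continuous_hs.comp continuous_neg).neg.continuousOn continuousOn_const
        continuousOn_id)
      (fun t ht => ⟨mem t ⟨ht.1, ht.2.trans hz⟩, h1 t ht⟩)
    simp only [e1, neg_neg, hs_top, neg_zero] at this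
    exact this.symm.trans (bot_right ha hc hP this.source_mem (by norm_num) le_rfl)

include hP hb hc in
/-- from the bottom edges to the top edges along the ridges -/
lemma ridge_up {x y : ℝ} (h : pt x y (-1) ∈ AA a b c P) (hx : x = 1 ∨ x = -1) :
    JoinedIn (AA a b c P) (pt x y (-1)) (pt x 1 1) := by
  obtain ⟨hM, hPz⟩ := mem_AA.1 h
  have hy := hM.2.1
  simp only [pt_one] at hy
  have hx2 : x ^ 2 = 1 := by rcases hx with rfl | rfl <;> norm_num
  have j1 := joined_of_curve (A := AA a b c P) (γ := fun t => pt x t (-1)) hy.2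
    (continuousOn_pt continuousOn_const continuousOn_id continuousOn_const)
    (fun t ht => by
      refine ⟨mem_MM_bot le_rfl ⟨hy.1.trans ht.1, ht.2⟩
        (by rw [neg_neg, ss_zero le_rfl, hx2]; ring), ?_⟩
      refine hP _ _ ?_ hPz
      simp only [pt_zero, pt_one, pt_two]
      have := mul_le_mul_of_nonneg_left ht.1 hb
      linarith)
  obtain ⟨hM1, hP1⟩ := mem_AA.1 j1.target_mem
  have j2 := joined_of_curve (A := AA a b c P) (γ := fun t => pt x 1 t)
    (show (-1 : ℝ) ≤ 1 by norm_num)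
    (continuousOn_pt continuousOn_const continuousOn_const continuousOn_id)
    (fun t ht => by
      refine ⟨ridge_mem hx (Or.inl rfl) ht, ?_⟩
      refine hP _ _ ?_ hP1
      simp only [pt_zero, pt_one, pt_two]
      have := mul_le_mul_of_nonneg_left ht.1 hc
      linarith)
  exact j1.trans j2

include ha hb hc hP in
lemma exists_base : ∃ p : E3, ∀ q ∈ AA a b c P, JoinedIn (AA a b c P) q p := by
  obtain ⟨w, hw, hmax⟩ := isCompact_Icc.exists_isMaxOn (⟨1, by norm_num, by norm_num⟩ :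
    (Icc (1 : ℝ) (3 / 2)).Nonempty) (f := fun t => b * hs t + c * t)
    (((continuous_const.mul continuous_hs).add (continuous_const.mul continuous_id)).continuousOn)
  refine ⟨pt 1 (hs w) w, ?_⟩
  have hmax' : ∀ t ∈ Icc (1 : ℝ) (3 / 2), b * hs t + c * t ≤ b * hs w + c * w := fun t ht => hmax ht
  -- from the right top part
  have s1 : ∀ x y z, pt x y z ∈ AA a b c P → 1 ≤ z → 0 ≤ y →
      JoinedIn (AA a b c P) (pt x y z) (pt 1 (hs w) w) := by
    intro x y z h h1 h2
    have j := top_right (a := a) hP hb h h1 h2 hw hmax'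
    exact j.trans (top_x ha hP j.target_mem hw)
  -- from the top part
  have s2 : ∀ x y z, pt x y z ∈ AA a b c P → 1 ≤ z →
      JoinedIn (AA a b c P) (pt x y z) (pt 1 (hs w) w) := by
    intro x y z h h1
    rcases le_total 0 y with h2 | h2
    · exact s1 x y z h h1 h2
    · have j := top_left hb hc hP h h1 h2
      exact j.trans (s1 _ _ _ j.target_mem (by norm_num) le_rfl)
  -- from the saddle part
  have s3 : ∀ x y z, pt x y z ∈ AA a b c P → -1 < z →
      JoinedIn (AA a b c P) (pt x y z) (pt 1 (hs w) w) := by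
    intro x y z h h1
    rcases le_total 1 z with h3 | h3
    · exact s2 x y z h h3
    rcases le_total 0 y with h2 | h2
    · have j := up_right hb hc hP h h1 h3 h2
      exact j.trans (s2 _ _ _ j.target_mem le_rfl)
    · rcases from_left hb hc hP h h1 h3 h2 with j | j
      · exact j.trans (s2 _ _ _ j.target_mem le_rfl)
      · exact j.trans (s2 _ _ _ j.target_mem le_rfl)
  intro q hq
  rw [← pt_eta q] at hq ⊢
  rcases lt_or_ge (-1) (q 2) with h | h
  · exact s3 _ _ _ hq h
  · have key : JoinedIn (AA a b c P) (pt (q 0) (q 1) (q 2)) (pt (-1) (q 1) (-1)) ∨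
        JoinedIn (AA a b c P) (pt (q 0) (q 1) (q 2)) (pt 1 (q 1) (-1)) := by
      rcases le_total 0 (q 0) with h2 | h2
      · exact Or.inr (bot_right ha hc hP hq h h2)
      · exact bot_left ha hc hP hq h h2
    rcases key with j | j
    · have j2 := ridge_up hb hc hP j.target_mem (Or.inr rfl)
      exact j.trans (j2.trans (s2 _ _ _ j2.target_mem le_rfl))
    · have j2 := ridge_up hb hc hP j.target_mem (Or.inl rfl)
      exact j.trans (j2.trans (s2 _ _ _ j2.target_mem le_rfl))

include ha hb hc hP in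
lemma preconnected_nonneg : IsPreconnected (AA a b c P) := by
  obtain ⟨p, hp⟩ := exists_base ha hb hc hP
  rcases eq_empty_or_nonempty (AA a b c P) with h | ⟨q, hq⟩
  · rw [h]; exact isPreconnected_empty
  · have hpA := (hp q hq).target_mem
    have : IsPathConnected (AA a b c P) := ⟨p, hpA, fun {y} hy => (hp y hy).symm⟩
    exact this.isConnected.isPreconnected

end main

end Pool.Agent.Tight
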